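import Pool.Agent.W528.Ord.Null

/-!
Zero sets of regular functions inside a union of cosets of an open subgroup.
-/

set_option autoImplicit false

namespace Pool.Agent.Y162.FD

open MeasureTheory Topology
open Pool.Agent.W528.Ord

section

variable {G Ω : Type*} [Group G] [Field Ω]

open Classical in
/-- The indicator function of a coset. -/
noncomputable def ind (U : Subgroup G) (q : G ⧸ U) : G → Ω :=
  fun x => if (QuotientGroup.mk x : G ⧸ U) = q then 1 else 0

/-- The algebra generated by `A` and the indicator functions of the cosets of `U`. -/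
noncomputable def ext (A : Subalgebra Ω (G → Ω)) (U : Subgroup G) : Subalgebra Ω (G → Ω) :=
  A ⊔ Algebra.adjoin Ω (Set.range (ind (Ω := Ω) U))

lemma ext_fg {A : Subalgebra Ω (G → Ω)} (hA : A.FG) (U : Subgroup G) [Finite (G ⧸ U)] :
    (ext A U).FG := by
  refine Subalgebra.FG.sup hA ?_
  exact (Subalgebra.fg_def).mpr ⟨_, Set.finite_range _, rfl⟩

lemma ext_trans {A : Subalgebra Ω (G → Ω)} (hA : ∀ g : G, ∀ F ∈ A, (fun x => F (g * x)) ∈ A)
    (U : Subgroup G) (g : G) (F : G → Ω) (hF : F ∈ ext A U) : (fun x => F (g * x)) ∈ ext A U := by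
  classical
  -- translation is an algebra homomorphism
  let T : (G → Ω) →ₐ[Ω] (G → Ω) :=
    { toFun := fun F x => F (g * x)
      map_one' := rfl
      map_mul' := fun _ _ => rfl
      map_zero' := rfl
      map_add' := fun _ _ => rfl
      commutes' := fun _ => rfl }
  have h : ext A U ≤ (ext A U).comap T := by
    unfold ext
    refine sup_le (fun F hF => ?_) ?_
    · exact (le_sup_left : A ≤ _) (hA g F hF)
    · refine Algebra.adjoin_le ?_
      rintro _ ⟨q, rfl⟩
      refine (le_sup_right : Algebra.adjoin Ω (Set.range (ind (Ω := Ω) U)) ≤ _)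
        (Algebra.subset_adjoin ?_)
      refine ⟨g⁻¹ • q, ?_⟩
      funext x
      change ind U (g⁻¹ • q) x = ind U q (g * x)
      unfold ind
      have : (QuotientGroup.mk x : G ⧸ U) = g⁻¹ • q ↔ (QuotientGroup.mk (g * x) : G ⧸ U) = q := by
        rw [eq_inv_smul_iff]
        exact Iff.rfl
      simp only [this]
  exact h hF

variable [TopologicalSpace G] [IsTopologicalGroup G] [TopologicalSpace Ω] [IsTopologicalRing Ω]

lemma ext_cont {A : Subalgebra Ω (G → Ω)} (hc : ∀ F ∈ A, Continuous F) (U : Subgroup G)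
    (hU : IsOpen (U : Set G)) (F : G → Ω) (hF : F ∈ ext A U) : Continuous F := by
  classical
  let D : Subalgebra Ω (G → Ω) :=
    { carrier := {F | Continuous F}
      mul_mem' := fun hf hg => Continuous.mul hf hg
      add_mem' := fun hf hg => Continuous.add hf hg
      algebraMap_mem' := fun _ => continuous_const }
  have h : ext A U ≤ D := by
    refine sup_le (fun F hF => hc F hF) (Algebra.adjoin_le ?_)
    rintro _ ⟨q, rfl⟩
    change Continuous (ind U q)
    have hdisc : DiscreteTopology (G ⧸ U) := QuotientGroup.discreteTopology hU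
    have h1 : Continuous (fun q' : G ⧸ U => if q' = q then (1 : Ω) else 0) :=
      continuous_of_discreteTopology
    exact h1.comp continuous_quotient_mk'
  exact h hF

variable [CompactSpace G] [T2Space G] [MeasurableSpace G] [BorelSpace G] [T2Space Ω]

/-- If the zeros of a regular function in a union of cosets have positive measure, it vanishes on a
coset of an open subgroup which is contained in this union. -/
theorem coset_of_pos' (μ : Measure G) [IsProbabilityMeasure μ] [μ.IsMulLeftInvariant]
    (A : Subalgebra Ω (G → Ω)) (hfg : A.FG)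
    (hA : ∀ g : G, ∀ F ∈ A, (fun x => F (g * x)) ∈ A) (hc : ∀ F ∈ A, Continuous F)
    (U : Subgroup G) (hU : IsOpen (U : Set G)) [Finite (G ⧸ U)]
    (C : Set G) (hC : ∀ σ ∈ C, ∀ u ∈ U, σ * u ∈ C)
    (F0 : G → Ω) (hF0 : F0 ∈ A) (h0 : μ {g | g ∈ C ∧ F0 g = 0} ≠ 0) :
    ∃ (V : Subgroup G) (γ : G), IsOpen (V : Set G) ∧ γ ∈ C ∧ ∀ v ∈ V, F0 (γ * v) = 0 := by
  classical
  let F1 : G → Ω := fun g => if g ∈ C then F0 g else 1
  have hind : (fun g => if g ∈ C then (1 : Ω) else 0) ∈ ext A U := by
    have : (fun g => if g ∈ C then (1 : Ω) else 0) =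
        ∑ q ∈ (Set.toFinite ((QuotientGroup.mk : G → G ⧸ U) '' C)).toFinset, ind (Ω := Ω) U q := by
      funext g
      rw [Finset.sum_apply]
      unfold ind
      rw [Finset.sum_ite_eq]
      have hiff : (QuotientGroup.mk g : G ⧸ U) ∈
          (Set.toFinite ((QuotientGroup.mk : G → G ⧸ U) '' C)).toFinset ↔ g ∈ C := by
        rw [Set.Finite.mem_toFinset]
        constructor
        · rintro ⟨σ, hσ, hσg⟩
          have := hC σ hσ (σ⁻¹ * g) (QuotientGroup.eq.mp hσg)
          simpa using this
        · intro hg; exact ⟨g, hg, rfl⟩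
      simp only [hiff]
    rw [this]
    refine Subalgebra.sum_mem _ fun q _ => ?_
    exact (le_sup_right : Algebra.adjoin Ω (Set.range (ind (Ω := Ω) U)) ≤ _)
      (Algebra.subset_adjoin ⟨q, rfl⟩)
  have hF1 : F1 ∈ ext A U := by
    have : F1 = F0 * (fun g => if g ∈ C then (1 : Ω) else 0)
        + (1 - fun g => if g ∈ C then (1 : Ω) else 0) := by
      funext g
      simp only [F1, Pi.add_apply, Pi.mul_apply, Pi.sub_apply, Pi.one_apply]
      split_ifs <;> simp
    rw [this]
    exact Subalgebra.add_mem _ (Subalgebra.mul_mem _ ((le_sup_left : A ≤ _) hF0) hind)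
      (Subalgebra.sub_mem _ (Subalgebra.one_mem _) hind)
  have hZ : {g | F1 g = 0} = {g | g ∈ C ∧ F0 g = 0} := by
    ext g
    simp only [F1, Set.mem_setOf_eq]
    split_ifs with h
    · simp [h]
    · simp [h]
  haveI : IsNoetherianRing (ext A U) := by
    have : Algebra.FiniteType Ω (ext A U) := (Subalgebra.fg_iff_finiteType _).mp (ext_fg hfg U)
    exact Algebra.FiniteType.isNoetherianRing Ω _
  obtain ⟨V, γ, hV, hVγ⟩ := coset_of_pos μ (ext A U) (ext_trans hA U) (ext_cont hc U hU) F1 hF1
    (by rw [hZ]; exact h0)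
  have hmem : ∀ v ∈ V, γ * v ∈ C ∧ F0 (γ * v) = 0 := by
    intro v hv
    have : γ * v ∈ {g | F1 g = 0} := hVγ v hv
    rwa [hZ] at this
  refine ⟨V, γ, hV, ?_, fun v hv => (hmem v hv).2⟩
  have := (hmem 1 V.one_mem).1
  rwa [mul_one] at this

end

end Pool.Agent.Y162.FD
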