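import Pool.Agent.Y154.Trf

/-!
Linear algebra: a group of matrices whose span is the commutant of a number field, and whose trace is
proportional to a character, has rank one.
-/

set_option autoImplicit false

namespace Pool.Agent.Y162.FD

open Matrix Polynomial

section

variable {Ω : Type*} [Field Ω] [CharZero Ω] {n : ℕ} {E : Type*} [Field E] [Algebra ℚ E]
  [Algebra.IsAlgebraic ℚ E]

/-- The commutant of the image of `m`. -/
def comm (m : E →+* Matrix (Fin n) (Fin n) Ω) : Subalgebra Ω (Matrix (Fin n) (Fin n) Ω) where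
  carrier := {M | ∀ x, M * m x = m x * M}
  mul_mem' := by
    intro a b ha hb x
    rw [mul_assoc, hb x, ← mul_assoc, ha x, mul_assoc]
  add_mem' := by
    intro a b ha hb x
    rw [add_mul, mul_add, ha x, hb x]
  algebraMap_mem' := by
    intro r x
    exact Algebra.commutes r (m x)

omit [CharZero Ω] [Algebra ℚ E] [Algebra.IsAlgebraic ℚ E] in
lemma m_mem (m : E →+* Matrix (Fin n) (Fin n) Ω) (x : E) : m x ∈ comm m := by
  intro y
  rw [← map_mul, ← map_mul, mul_comm]

/-- If the trace form is degenerate in the strongest sense, `n ≤ 1`. -/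
theorem rank_one (m : E →+* Matrix (Fin n) (Fin n) Ω)
    (h : ∀ A ∈ comm m, ∀ B ∈ comm m, (n : Ω) * (A * B).trace = A.trace * B.trace) : n ≤ 1 := by
  by_contra hn
  push Not at hn
  have hn0 : (n : Ω) ≠ 0 := by
    have : n ≠ 0 := by omega
    exact_mod_cast this
  -- every element of the field is a scalar
  have hscal : ∀ x : E, ∃ c : Ω, m x = c • (1 : Matrix (Fin n) (Fin n) Ω) := by
    intro x
    set c : Ω := (m x).trace / n with hc
    refine ⟨c, ?_⟩
    set N := m x - c • (1 : Matrix (Fin n) (Fin n) Ω) with hN
    have hNmem : N ∈ comm m :=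
      (comm m).sub_mem (m_mem m x) ((comm m).smul_mem (comm m).one_mem c)
    have hnil : IsNilpotent N := by
      refine Pool.Agent.Y154.Trf.nilpotent_of_trace (comm m) N hNmem fun y hy => ?_
      have h1 := h _ (m_mem m x) _ hy
      rw [hN, sub_mul, trace_sub, smul_mul_assoc, one_mul, trace_smul, smul_eq_mul, hc]
      field_simp
      linear_combination h1
    -- semisimple
    have hsep : Squarefree ((minpoly ℚ x).map (algebraMap ℚ Ω)) := by
      have hint : IsIntegral ℚ x := (Algebra.IsAlgebraic.isAlgebraic x).isIntegral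
      have h1 : (minpoly ℚ x).Separable := (minpoly.irreducible hint).separable
      exact (h1.map).squarefree
    have hzero : aeval (m x) ((minpoly ℚ x).map (algebraMap ℚ Ω)) = 0 := by
      rw [aeval_map_algebraMap]
      have : aeval (m.toRatAlgHom x) (minpoly ℚ x) = m.toRatAlgHom (aeval x (minpoly ℚ x)) :=
        aeval_algHom_apply m.toRatAlgHom x _
      rw [minpoly.aeval, map_zero] at this
      exact this
    have hss : Module.End.IsSemisimple (Matrix.toLin' (m x)) := by
      refine Module.End.isSemisimple_of_squarefree_aeval_eq_zero hsep ?_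
      have h2 : aeval (Matrix.toLinAlgEquiv' (m x)) ((minpoly ℚ x).map (algebraMap ℚ Ω))
          = Matrix.toLinAlgEquiv' (aeval (m x) ((minpoly ℚ x).map (algebraMap ℚ Ω))) :=
        aeval_algHom_apply (Matrix.toLinAlgEquiv' (R := Ω) (n := Fin n)).toAlgHom (m x) _
      rw [hzero, map_zero] at h2
      exact h2
    have hss2 : Module.End.IsSemisimple (Matrix.toLin' N) := by
      have h3 : Matrix.toLin' N = Matrix.toLin' (m x)
          - algebraMap Ω (Module.End Ω (Fin n → Ω)) c := by
        rw [hN, map_sub, map_smul, Matrix.toLin'_one]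
        rfl
      rw [h3]
      exact (Module.End.isSemisimple_sub_algebraMap_iff).mpr hss
    have hnil2 : IsNilpotent (Matrix.toLin' N) := by
      obtain ⟨k, hk⟩ := hnil
      refine ⟨k, ?_⟩
      rw [← Matrix.toLin'_pow, hk, map_zero]
    have h0 := Module.End.eq_zero_of_isNilpotent_isSemisimple hnil2 hss2
    have h1 : N = 0 := (Matrix.toLin'.map_eq_zero_iff).mp h0
    rw [hN, sub_eq_zero] at h1
    exact h1
  -- a matrix unit
  let i0 : Fin n := ⟨0, by omega⟩
  have hmem : Matrix.single i0 i0 (1 : Ω) ∈ comm m := by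
    intro x
    obtain ⟨c, hc⟩ := hscal x
    rw [hc, mul_smul_comm, smul_mul_assoc, mul_one, one_mul]
  have h1 := h _ hmem _ hmem
  rw [Matrix.single_mul_single_same, mul_one, Matrix.trace_single_eq_same, mul_one, mul_one] at h1
  have : (n : Ω) = (1 : ℕ) := by rw [h1]; simp
  have := Nat.cast_injective this
  omega

end

end Pool.Agent.Y162.FD
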