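import Pool.Agent.TH30.Ord.PRank
import Pool.Agent.Y162.FD.Coset
import Pool.Agent.Y162.FD.LinAlg

/-!
The exact density of the ordinary places.
-/

set_option autoImplicit false

namespace Pool.Agent.Y162.FD

open NumberField IsDedekindDomain Filter Topology MeasureTheory
open Pool.Agent.W401.Cheb Pool.Agent.W528.Ord
open Pool.Agent.W528.Ord.MultSystem (IsDeg1)

/-- The data attached to a motive over the number field `K`, all endomorphisms of which over the
algebraic closure form the number field `E`. -/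
structure EndSystem (K : Type) [Field K] [NumberField K] (ℓ : ℕ) [Fact ℓ.Prime] where
  /-- the rank -/
  n : ℕ
  /-- the `ℓ`-adic realisation -/
  ρ : GK K →* Matrix.GeneralLinearGroup (Fin n) (PadicAlgCl ℓ)
  /-- the field of endomorphisms over the algebraic closure of `K` -/
  E : Type
  [fieldE : Field E]
  [numberFieldE : NumberField E]
  /-- the action of the endomorphisms on the `ℓ`-adic realisation -/
  m : E →+* Matrix (Fin n) (Fin n) (PadicAlgCl ℓ)
  /-- the action of the Galois group on the endomorphisms -/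
  α : GK K →* RingAut E
  /-- the traces of the Frobenius elements -/
  a : HeightOneSpectrum (𝓞 K) → ℤ

attribute [instance] EndSystem.fieldE EndSystem.numberFieldE

variable {K : Type} [Field K] [NumberField K] {ℓ : ℕ} [Fact ℓ.Prime]

namespace EndSystem

/-- the matrix of `ρ g` -/
noncomputable def mat (A : EndSystem K ℓ) (g : GK K) : Matrix (Fin A.n) (Fin A.n) (PadicAlgCl ℓ) :=
  A.ρ g

/-- the representation and the character `χ` are continuous -/
def Cont (A : EndSystem K ℓ) (χ : GK K →* (PadicAlgCl ℓ)ˣ) : Prop :=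
  (∀ i j, Continuous fun g : GK K => A.mat g i j) ∧ Continuous fun g : GK K => (χ g : PadicAlgCl ℓ)

/-- at the Frobenius elements at `v` the character `χ` is `N v` and the trace is the integer `a v` -/
def Compat (A : EndSystem K ℓ) (χ : GK K →* (PadicAlgCl ℓ)ˣ) (S : Finset ℕ) : Prop :=
  ∀ v : HeightOneSpectrum (𝓞 K), IsDeg1 S v → ∀ γ : GK K, IsFrob v γ →
    (χ γ : PadicAlgCl ℓ) = (Ideal.absNorm v.asIdeal : PadicAlgCl ℓ) ∧
    (A.mat γ).trace = (A.a v : PadicAlgCl ℓ)

/-- the weight is one or two: the traces satisfy `|a v| ≤ n N v` -/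
def Weight (A : EndSystem K ℓ) (S : Finset ℕ) : Prop :=
  ∀ v : HeightOneSpectrum (𝓞 K), IsDeg1 S v →
    |A.a v| ≤ (A.n : ℤ) * (Ideal.absNorm v.asIdeal : ℤ)

/-- the Galois group acts semilinearly with respect to the endomorphisms -/
def Semilinear (A : EndSystem K ℓ) : Prop :=
  ∀ (g : GK K) (x : A.E), A.mat g * A.m x = A.m (A.α g x) * A.mat g

/-- Tate conjecture for endomorphisms and semisimplicity, over all finite extensions of `K`: the
matrices which commute with the endomorphisms are in the span of the image of every open subgroup -/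
def Full (A : EndSystem K ℓ) : Prop :=
  ∀ U : Subgroup (GK K), IsOpen (U : Set (GK K)) →
    ∀ M : Matrix (Fin A.n) (Fin A.n) (PadicAlgCl ℓ), (∀ x : A.E, M * A.m x = A.m x * M) →
    M ∈ Submodule.span (PadicAlgCl ℓ) (A.mat '' (U : Set (GK K)))

end EndSystem

/-- The properties of such a system at the places of degree one outside a finite set `S` of residue
characteristics; `χ` is the cyclotomic character. -/
structure IsEndSystem (A : EndSystem K ℓ) (χ : GK K →* (PadicAlgCl ℓ)ˣ) (S : Finset ℕ) : Prop where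
  /-- the rank is at least two -/
  two_le : 2 ≤ A.n
  cont : A.Cont χ
  compat : A.Compat χ S
  weight : A.Weight S
  semilinear : A.Semilinear
  /-- the endomorphisms are defined over a finite extension of `K` -/
  open_ker : IsOpen (A.α.ker : Set (GK K))
  full : A.Full

variable {A : EndSystem K ℓ} {χ : GK K →* (PadicAlgCl ℓ)ˣ} {S : Finset ℕ}

lemma rho_mul (A : EndSystem K ℓ) (g h : GK K) :
    (A.ρ (g * h) : Matrix (Fin A.n) (Fin A.n) (PadicAlgCl ℓ)) = A.ρ g * A.ρ h := by
  rw [map_mul]; rfl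

/-- The trace is not proportional to the character on a coset of an open subgroup which fixes the
endomorphisms. -/
theorem not_const (hA : IsEndSystem A χ S) (γ : GK K) (hγ : A.α γ = 1) (V : Subgroup (GK K))
    (hV : IsOpen (V : Set (GK K))) (c : PadicAlgCl ℓ)
    (h : ∀ v ∈ V, (A.ρ (γ * v) : Matrix (Fin A.n) (Fin A.n) (PadicAlgCl ℓ)).trace
      = c * (χ (γ * v) : PadicAlgCl ℓ)) : False := by
  classical
  let R : GK K → Matrix (Fin A.n) (Fin A.n) (PadicAlgCl ℓ) := fun g => A.ρ g
  have hR : ∀ g h, R (g * h) = R g * R h := rho_mul A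
  have hR1 : R 1 = 1 := by
    change ((A.ρ 1 : Matrix.GeneralLinearGroup (Fin A.n) (PadicAlgCl ℓ)) :
      Matrix (Fin A.n) (Fin A.n) (PadicAlgCl ℓ)) = 1
    rw [map_one]; rfl
  let V' : Subgroup (GK K) := V ⊓ A.α.ker
  have hV' : IsOpen (V' : Set (GK K)) := hV.inter hA.open_ker
  have hspan : ∀ M ∈ comm A.m, M ∈ Submodule.span (PadicAlgCl ℓ) (R '' (V' : Set (GK K))) :=
    fun M hM => hA.full V' hV' M hM
  -- the inverse of `ρ γ`
  have hinv : R γ * R γ⁻¹ = 1 := by rw [← hR, mul_inv_cancel, hR1]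
  have hMmem : R γ⁻¹ ∈ comm A.m := by
    intro x
    have h1 := hA.semilinear γ⁻¹ x
    have h2 : A.α γ⁻¹ = 1 := by rw [map_inv, hγ, inv_one]
    rw [h2] at h1
    exact h1
  have hlin : ∀ B ∈ Submodule.span (PadicAlgCl ℓ) (R '' (V' : Set (GK K))),
      ∃ cB : PadicAlgCl ℓ, ∀ v ∈ V', (R γ * B * R v).trace = cB * (χ v : PadicAlgCl ℓ) := by
    intro B hB
    induction hB using Submodule.span_induction with
    | mem B hB =>
      obtain ⟨u, hu, rfl⟩ := hB
      refine ⟨c * (χ γ : PadicAlgCl ℓ) * (χ u : PadicAlgCl ℓ), fun v hv => ?_⟩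
      have h1 := h (u * v) (V.mul_mem hu.1 hv.1)
      have h2 : R γ * R u * R v = R (γ * (u * v)) := by rw [hR, hR, mul_assoc]
      rw [h2]
      refine h1.trans ?_
      rw [map_mul, map_mul, Units.val_mul, Units.val_mul]
      ring
    | zero => exact ⟨0, fun v _ => by simp⟩
    | add B B' _ _ hB hB' =>
      obtain ⟨b, hb⟩ := hB
      obtain ⟨b', hb'⟩ := hB'
      refine ⟨b + b', fun v hv => ?_⟩
      rw [mul_add, add_mul, Matrix.trace_add, hb v hv, hb' v hv]
      ring
    | smul r B _ hB =>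
      obtain ⟨b, hb⟩ := hB
      refine ⟨r * b, fun v hv => ?_⟩
      rw [mul_smul_comm, smul_mul_assoc, Matrix.trace_smul, hb v hv, smul_eq_mul]
      ring
  obtain ⟨c', hc'⟩ := hlin _ (hspan _ hMmem)
  have htr : ∀ v ∈ V', (R v).trace = c' * (χ v : PadicAlgCl ℓ) := by
    intro v hv
    have := hc' v hv
    rwa [hinv, one_mul] at this
  have hn : c' = (A.n : PadicAlgCl ℓ) := by
    have := htr 1 V'.one_mem
    rw [hR1, Matrix.trace_one, map_one, Units.val_one, mul_one, Fintype.card_fin] at this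
    exact this.symm
  have hle := rank_one A.m (fun X hX Y hY => ?_)
  · have := hA.two_le
    omega
  · have hX' := hspan X hX
    have hY' := hspan Y hY
    clear hX hY
    induction hX' using Submodule.span_induction with
    | mem X hX =>
      obtain ⟨u, hu, rfl⟩ := hX
      induction hY' using Submodule.span_induction with
      | mem Y hY =>
        obtain ⟨v, hv, rfl⟩ := hY
        rw [← hR, htr _ (V'.mul_mem hu hv), htr _ hu, htr _ hv, hn, map_mul, Units.val_mul]
        ring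
      | zero => simp
      | add Y Y' _ _ hY hY' =>
        rw [mul_add, Matrix.trace_add, Matrix.trace_add, mul_add, hY, hY']
        ring
      | smul r Y _ hY =>
        rw [mul_smul_comm, Matrix.trace_smul, Matrix.trace_smul, smul_eq_mul, smul_eq_mul]
        linear_combination r * hY
    | zero => simp
    | add X X' _ _ hX hX' =>
      rw [add_mul, Matrix.trace_add, Matrix.trace_add, mul_add, hX, hX']
      ring
    | smul r X _ hX =>
      rw [smul_mul_assoc, Matrix.trace_smul, Matrix.trace_smul, smul_eq_mul, smul_eq_mul]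
      linear_combination r * hX

/-- Frobenius elements which move the endomorphisms have trace zero. -/
theorem trace_zero (hA : IsEndSystem A χ S) (γ : GK K) (hγ : A.α γ ≠ 1) :
    (A.ρ γ : Matrix (Fin A.n) (Fin A.n) (PadicAlgCl ℓ)).trace = 0 := by
  obtain ⟨x, hx⟩ : ∃ x, A.α γ x ≠ x := by
    by_contra hcon
    push Not at hcon
    exact hγ (RingEquiv.ext hcon)
  let R : Matrix (Fin A.n) (Fin A.n) (PadicAlgCl ℓ) := A.ρ γ
  have h1 : ∀ y, (R * A.m (x * y)).trace = (R * A.m (A.α γ x * y)).trace := by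
    intro y
    rw [map_mul, ← mul_assoc, show R * A.m x = A.m (A.α γ x) * R from hA.semilinear γ x, mul_assoc,
      Matrix.trace_mul_comm, mul_assoc, ← map_mul, mul_comm y]
  have h2 : ∀ y, (R * A.m ((x - A.α γ x) * y)).trace = 0 := by
    intro y
    rw [sub_mul, map_sub, mul_sub, Matrix.trace_sub, h1, sub_self]
  have h3 := h2 (x - A.α γ x)⁻¹
  rw [mul_inv_cancel₀ (sub_ne_zero.mpr (Ne.symm hx)), map_one, mul_one] at h3
  exact h3

/-- Among the places whose Frobenius elements fix the endomorphisms the non-ordinary ones have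
density zero. -/
theorem bad_dens (hA : IsEndSystem A χ S) :
    Tendsto (dens fun v : HeightOneSpectrum (𝓞 K) => IsDeg1 S v ∧
      (∃ σ : GK K, A.α σ = 1 ∧ IsFrob v σ) ∧ (Ideal.absNorm v.asIdeal : ℤ) ∣ A.a v) atTop (𝓝 0) := by
  classical
  let _ : MeasurableSpace (GK K) := borel (GK K)
  have : BorelSpace (GK K) := ⟨rfl⟩
  let μ : Measure (GK K) := Measure.haarMeasure ⊤
  have : IsProbabilityMeasure μ := ⟨by
    have := Measure.haarMeasure_self (K₀ := (⊤ : TopologicalSpace.PositiveCompacts (GK K)))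
    exact this⟩
  let ρ' : (ℚ →+* PadicAlgCl ℓ) → GK K →* Matrix.GeneralLinearGroup (Fin A.n) (PadicAlgCl ℓ) :=
    fun _ => A.ρ
  have hfg : (FA ρ' χ).FG := by
    unfold FA
    rw [← Algebra.map_top]
    exact Subalgebra.FG.map _ (Algebra.FiniteType.out)
  let F : ℤ → GK K → PadicAlgCl ℓ := fun c g =>
    (A.ρ g : Matrix (Fin A.n) (Fin A.n) (PadicAlgCl ℓ)).trace - (c : PadicAlgCl ℓ) * (χ g : PadicAlgCl ℓ)
  have hF : ∀ c, F c ∈ FA ρ' χ := by
    intro c
    have h1 : F c = (∑ i, fun g => (A.ρ g : Matrix (Fin A.n) (Fin A.n) (PadicAlgCl ℓ)) i i)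
        - (c : PadicAlgCl ℓ) • (fun g => (χ g : PadicAlgCl ℓ)) := by
      funext g
      simp [F, Matrix.trace]
    rw [h1]
    refine Subalgebra.sub_mem _ (Subalgebra.sum_mem _ fun i _ => ?_)
      (Subalgebra.smul_mem _ (char_mem ρ' χ) _)
    exact entry_mem ρ' χ (Rat.castHom _) i i
  have hcF : ∀ c, Continuous (F c) := fun c => cont_mem ρ' χ (fun _ => hA.cont.1) hA.cont.2 _ (hF c)
  have hcl : ∀ c, ∀ σ τ : GK K, F c (τ * σ * τ⁻¹) = F c σ := by
    intro c σ τ
    have h1 : (χ (τ * σ * τ⁻¹) : (PadicAlgCl ℓ)ˣ) = χ σ := by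
      rw [map_mul, map_mul, map_inv, mul_comm, inv_mul_cancel_left]
    have h2 : (A.ρ (τ * σ * τ⁻¹) : Matrix (Fin A.n) (Fin A.n) (PadicAlgCl ℓ)).trace
        = (A.ρ σ : Matrix (Fin A.n) (Fin A.n) (PadicAlgCl ℓ)).trace := by
      rw [rho_mul, rho_mul, Matrix.trace_mul_comm, ← mul_assoc, ← rho_mul, inv_mul_cancel, map_one]
      simp
    simp only [F, h1, h2]
  have : Finite (GK K ⧸ A.α.ker) := Subgroup.quotient_finite_of_isOpen _ hA.open_ker
  have hclosed : IsClosed (A.α.ker : Set (GK K)) := Subgroup.isClosed_of_isOpen _ hA.open_ker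
  have hnull : ∀ c : ℤ, Tendsto (dens fun v : HeightOneSpectrum (𝓞 K) =>
      ∃ σ ∈ {g : GK K | g ∈ (A.α.ker : Set (GK K)) ∧ F c g = 0}, IsFrob v σ) atTop (𝓝 0) := by
    intro c
    refine dens_null μ _ (hclosed.inter (isClosed_eq (hcF c) continuous_const)) ?_ ?_
    · rintro σ ⟨h1, h2⟩ τ
      exact ⟨(inferInstance : A.α.ker.Normal).conj_mem σ h1 τ, (hcl c σ τ).trans h2⟩
    · by_contra hpos
      obtain ⟨V, γ, hV, hγ, hVγ⟩ := coset_of_pos' μ (FA ρ' χ) hfg (trans_mem ρ' χ)
        (cont_mem ρ' χ (fun _ => hA.cont.1) hA.cont.2) A.α.ker hA.open_ker (A.α.ker : Set (GK K))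
        (fun σ hσ u hu => A.α.ker.mul_mem hσ hu) (F c) (hF c) hpos
      exact not_const hA γ hγ V hV c fun v hv => sub_eq_zero.mp (hVγ v hv)
  have hun := dens_biUnion (Finset.Icc (-(A.n : ℤ)) (A.n : ℤ)) (fun c v =>
    ∃ σ ∈ {g : GK K | g ∈ (A.α.ker : Set (GK K)) ∧ F c g = 0}, IsFrob v σ) (fun c _ => hnull c)
  refine squeeze_zero (fun N => dens_nonneg _ _) (fun N => dens_mono ?_ N) hun
  rintro v ⟨hv, ⟨σ, hσ, hσv⟩, c, hc⟩
  have hp : (0 : ℤ) < (Ideal.absNorm v.asIdeal : ℤ) := by exact_mod_cast hv.1.pos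
  refine ⟨c, ?_, σ, ⟨hσ, ?_⟩, hσv⟩
  · have h1 := hA.weight v hv
    rw [hc, abs_mul, abs_of_pos hp, mul_comm] at h1
    have h2 : |c| ≤ (A.n : ℤ) := le_of_mul_le_mul_right h1 hp
    exact Finset.mem_Icc.mpr (abs_le.mp h2)
  · change (A.ρ σ : Matrix (Fin A.n) (Fin A.n) (PadicAlgCl ℓ)).trace
      - (c : PadicAlgCl ℓ) * (χ σ : PadicAlgCl ℓ) = 0
    rw [show (A.ρ σ : Matrix (Fin A.n) (Fin A.n) (PadicAlgCl ℓ)).trace = _ from
      (hA.compat v hv σ hσv).2, (hA.compat v hv σ hσv).1, hc]
    push_cast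
    ring

/-- The subgroup which fixes all endomorphisms of all members of the family. -/
noncomputable def fixAll {ι : Type} (A : ι → EndSystem K ℓ) : Subgroup (GK K) := ⨅ i, (A i).α.ker

theorem mem_fixAll {ι : Type} (A : ι → EndSystem K ℓ) (σ : GK K) :
    σ ∈ fixAll A ↔ ∀ i, (A i).α σ = 1 := by
  unfold fixAll
  rw [Subgroup.mem_iInf]
  exact Iff.rfl

theorem main {ι : Type} [Finite ι] (A : ι → EndSystem K ℓ) (χ : GK K →* (PadicAlgCl ℓ)ˣ)
    (S : Finset ℕ) (hA : ∀ i, IsEndSystem (A i) χ S) :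
    Tendsto (ratio fun v : HeightOneSpectrum (𝓞 K) => IsDeg1 S v ∧
      ∀ i, ¬ (Ideal.absNorm v.asIdeal : ℤ) ∣ (A i).a v) atTop
      (𝓝 (1 / ((fixAll A).index : ℝ))) := by
  classical
  cases nonempty_fintype ι
  have hopen : IsOpen (fixAll A : Set (GK K)) := by
    have : (fixAll A : Set (GK K)) = ⋂ i, ((A i).α.ker : Set (GK K)) := by
      unfold fixAll
      rw [Subgroup.coe_iInf]
    rw [this]
    exact isOpen_iInter_of_finite fun i => (hA i).open_ker
  have : (fixAll A).Normal := by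
    constructor
    intro a ha g
    rw [mem_fixAll] at ha ⊢
    intro i
    rw [map_mul, map_mul, ha i, mul_one, ← map_mul, mul_inv_cancel, map_one]
  have hcheb := chebK K (fixAll A) hopen (fixAll A : Set (GK K))
    (fun σ hσ τ => (inferInstance : (fixAll A).Normal).conj_mem σ hσ τ)
    (fun σ hσ u hu => (fixAll A).mul_mem hσ hu)
  have himg : ((QuotientGroup.mk : GK K → GK K ⧸ fixAll A) '' (fixAll A : Set (GK K))).ncard = 1 := by
    rw [Set.ncard_eq_one]
    refine ⟨QuotientGroup.mk 1, ?_⟩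
    ext q
    constructor
    · rintro ⟨x, hx, rfl⟩
      rw [Set.mem_singleton_iff, QuotientGroup.eq]
      simpa using hx
    · rintro rfl
      exact ⟨1, (fixAll A).one_mem, rfl⟩
  rw [himg, Nat.cast_one] at hcheb
  change Tendsto _ atTop (𝓝 (1 / ((fixAll A).index : ℝ))) at hcheb
  -- the exceptional places
  let B : Option ι → HeightOneSpectrum (𝓞 K) → Prop := fun o v => match o with
    | none => ¬ IsDeg1 S v
    | some i => IsDeg1 S v ∧ (∃ σ : GK K, (A i).α σ = 1 ∧ IsFrob v σ) ∧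
        (Ideal.absNorm v.asIdeal : ℤ) ∣ (A i).a v
  have hB := dens_biUnion (Finset.univ : Finset (Option ι)) B (by
    rintro (_ | i) _
    · exact Pool.Agent.TH30.Ord.dens_not_deg1 S
    · exact bad_dens (hA i))
  apply ratio_tendsto
  refine tendsto_of_tendsto_of_tendsto_of_le_of_le (by
    have := hcheb.sub hB
    rwa [sub_zero] at this) hcheb (fun N => ?_) (fun N => ?_)
  · -- lower bound
    rw [sub_le_iff_le_add]
    refine (dens_mono ?_ N).trans (dens_or _ _ N)
    rintro v ⟨σ, hσ, hσv⟩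
    by_cases hv : IsDeg1 S v
    · by_cases hall : ∀ i, ¬ (Ideal.absNorm v.asIdeal : ℤ) ∣ (A i).a v
      · exact Or.inl ⟨hv, hall⟩
      · push Not at hall
        obtain ⟨i, hi⟩ := hall
        exact Or.inr ⟨some i, Finset.mem_univ _, hv, ⟨σ, (mem_fixAll A σ).mp hσ i, hσv⟩, hi⟩
    · exact Or.inr ⟨none, Finset.mem_univ _, hv⟩
  · -- upper bound
    refine dens_mono ?_ N
    rintro v ⟨hv, hall⟩
    obtain ⟨σ, hσ⟩ := exists_isFrob v
    refine ⟨σ, ?_, hσ⟩
    rw [SetLike.mem_coe, mem_fixAll]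
    intro i
    by_contra hne
    apply hall i
    have h1 := trace_zero (hA i) σ hne
    rw [show ((A i).ρ σ : Matrix (Fin (A i).n) (Fin (A i).n) (PadicAlgCl ℓ)).trace = _ from
      ((hA i).compat v hv σ hσ).2] at h1
    have h2 : (A i).a v = 0 := by exact_mod_cast h1
    rw [h2]
    exact dvd_zero _

end Pool.Agent.Y162.FD
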