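import Pool.Agent.TH30.Ord.PRank
import Pool.Agent.Y162.FD.Coset

/-!
The set of the ordinary places of a system with small Hodge defects is Frobenian up to density zero.
-/

set_option autoImplicit false

namespace Pool.Agent.Y162.FD

open NumberField IsDedekindDomain Filter Topology MeasureTheory Polynomial
open Pool.Agent.W401.Cheb Pool.Agent.W528.Ord
open Pool.Agent.W528.Ord.MultSystem (IsDeg1)

section uniform

variable {G Ω : Type*} [Group G] [Field Ω] [TopologicalSpace G] [IsTopologicalGroup G]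

/-- The functions which vanish on a subgroup. -/
def van (A : Subalgebra Ω (G → Ω)) (V : Subgroup G) : Ideal A where
  carrier := {F | ∀ v ∈ V, (F : G → Ω) v = 0}
  add_mem' := by
    intro a b ha hb v hv
    have : ((a + b : A) : G → Ω) v = (a : G → Ω) v + (b : G → Ω) v := rfl
    rw [this, ha v hv, hb v hv, add_zero]
  zero_mem' := fun v _ => rfl
  smul_mem' := by
    intro c a ha v hv
    have : ((c • a : A) : G → Ω) v = (c : G → Ω) v * (a : G → Ω) v := rfl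
    rw [this, ha v hv, mul_zero]

omit [IsTopologicalGroup G] in
/-- There is an open subgroup `V₀` such that a regular function which vanishes on a coset `γ V` of
some open subgroup vanishes on `γ V₀`. -/
theorem uniform (A : Subalgebra Ω (G → Ω)) [IsNoetherianRing A]
    (hA : ∀ g : G, ∀ F ∈ A, (fun x => F (g * x)) ∈ A) :
    ∃ V₀ : Subgroup G, IsOpen (V₀ : Set G) ∧ ∀ F ∈ A, ∀ V : Subgroup G, IsOpen (V : Set G) →
      ∀ γ : G, (∀ v ∈ V, F (γ * v) = 0) → ∀ u ∈ V₀, F (γ * u) = 0 := by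
  obtain ⟨I, ⟨V₀, hV₀, rfl⟩, hmax⟩ := WellFounded.has_min (wellFounded_gt (α := Ideal A))
    {I : Ideal A | ∃ V : Subgroup G, IsOpen (V : Set G) ∧ van A V = I}
    ⟨van A ⊤, ⊤, isOpen_univ, rfl⟩
  refine ⟨V₀, hV₀, fun F hF V hV γ h u hu => ?_⟩
  have hle : van A V₀ ≤ van A (V ⊓ V₀) := fun f hf v hv => hf v hv.2
  have heq : van A (V ⊓ V₀) = van A V₀ := by
    by_contra hne
    exact hmax _ ⟨V ⊓ V₀, hV.inter hV₀, rfl⟩ (lt_of_le_of_ne hle (Ne.symm hne))
  have hmem : (⟨fun x => F (γ * x), hA γ F hF⟩ : A) ∈ van A (V ⊓ V₀) := fun v hv => h v hv.1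
  rw [heq] at hmem
  exact hmem u hu

end uniform

section dens

variable {K : Type} [Field K] [NumberField K] {Ω : Type} [Field Ω] [TopologicalSpace Ω]
  [IsTopologicalRing Ω] [T2Space Ω]

theorem coset_dens (A : Subalgebra Ω (GK K → Ω)) (hfg : A.FG)
    (hA : ∀ g : GK K, ∀ F ∈ A, (fun x => F (g * x)) ∈ A) (hc : ∀ F ∈ A, Continuous F)
    (V₀ : Subgroup (GK K))
    (hV₀ : ∀ F ∈ A, ∀ V : Subgroup (GK K), IsOpen (V : Set (GK K)) →
      ∀ γ : GK K, (∀ v ∈ V, F (γ * v) = 0) → ∀ u ∈ V₀, F (γ * u) = 0)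
    (U : Subgroup (GK K)) [U.Normal] (hU : IsOpen (U : Set (GK K))) (hUV : U ≤ V₀)
    (F : GK K → Ω) (hF : F ∈ A) (hcl : ∀ σ τ : GK K, F (τ * σ * τ⁻¹) = F σ) :
    Tendsto (dens fun v : HeightOneSpectrum (𝓞 K) =>
      ∃ σ ∈ {g : GK K | g ∈ {g : GK K | ¬ ∀ u ∈ U, F (g * u) = 0} ∧ F g = 0}, IsFrob v σ)
      atTop (𝓝 0) := by
  classical
  let _ : MeasurableSpace (GK K) := borel (GK K)
  have : BorelSpace (GK K) := ⟨rfl⟩
  let μ : Measure (GK K) := Measure.haarMeasure ⊤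
  have : IsProbabilityMeasure μ := ⟨by
    have := Measure.haarMeasure_self (K₀ := (⊤ : TopologicalSpace.PositiveCompacts (GK K)))
    exact this⟩
  have : Finite (GK K ⧸ U) := Subgroup.quotient_finite_of_isOpen _ hU
  set C : Set (GK K) := {g : GK K | ¬ ∀ u ∈ U, F (g * u) = 0} with hC
  have hCU : ∀ σ, ∀ u ∈ U, (σ * u ∈ C ↔ σ ∈ C) := by
    intro σ u hu
    rw [hC, Set.mem_setOf_eq, Set.mem_setOf_eq, not_iff_not]
    constructor
    · intro h w hw
      have := h (u⁻¹ * w) (U.mul_mem (U.inv_mem hu) hw)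
      rwa [← mul_assoc, mul_assoc σ u, mul_inv_cancel, mul_one] at this
    · intro h w hw
      rw [mul_assoc]
      exact h _ (U.mul_mem hu hw)
  have hopen : IsOpen Cᶜ := by
    rw [isOpen_iff_forall_mem_open]
    intro x hx
    refine ⟨(fun y => x⁻¹ * y) ⁻¹' (U : Set (GK K)), ?_, hU.preimage (continuous_const_mul x⁻¹), ?_⟩
    · intro y hy
      have h1 : y = x * (x⁻¹ * y) := by rw [mul_inv_cancel_left]
      intro hyC
      apply hx
      rw [h1] at hyC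
      exact (hCU x _ hy).mp hyC
    · simp
  have hCclosed : IsClosed C := isOpen_compl_iff.mp hopen
  have hCconj : ∀ σ ∈ C, ∀ τ : GK K, τ * σ * τ⁻¹ ∈ C := by
    intro σ hσ τ h
    apply hσ
    intro u hu
    have h1 := h (τ * u * τ⁻¹) ((inferInstance : U.Normal).conj_mem u hu τ)
    have h2 : τ * σ * τ⁻¹ * (τ * u * τ⁻¹) = τ * (σ * u) * τ⁻¹ := by group
    rw [h2, hcl] at h1
    exact h1
  refine dens_null μ _ (hCclosed.inter (isClosed_eq (hc F hF) continuous_const)) ?_ ?_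
  · rintro σ ⟨h1, h2⟩ τ
    exact ⟨hCconj σ h1 τ, (hcl σ τ).trans h2⟩
  · by_contra hpos
    obtain ⟨V, γ, hV, hγ, hVγ⟩ := coset_of_pos' μ A hfg hA hc U hU C
      (fun σ hσ u hu => (hCU σ u hu).mpr hσ) F hF hpos
    exact hγ fun u hu => hV₀ F hF V hV γ hVγ u (hUV hu)

end dens

/-- The data attached to a motive over the number field `K`. -/
structure IntSystem (K : Type) [Field K] [NumberField K] (ℓ : ℕ) [Fact ℓ.Prime] where
  /-- the weight -/
  w : ℕ
  /-- the rank -/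
  n : ℕ
  /-- the Hodge slopes, in increasing order -/
  h : List ℕ
  /-- the dual of the `ℓ`-adic realisation -/
  ρ : GK K →* Matrix.GeneralLinearGroup (Fin n) (PadicAlgCl ℓ)
  /-- the characteristic polynomials of the geometric Frobenius elements -/
  P : HeightOneSpectrum (𝓞 K) → ℤ[X]

namespace IntSystem

variable {K : Type} [Field K] [NumberField K] {ℓ : ℕ} [Fact ℓ.Prime]

/-- the Hodge polygon at `k`: the sum of the `k` smallest slopes -/
def hp (A : IntSystem K ℓ) (k : ℕ) : ℕ := (A.h.take k).sum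

/-- `k` is a vertex of the Hodge polygon, different from the end points -/
def Vertex (A : IntSystem K ℓ) (k : ℕ) : Prop :=
  0 < k ∧ k < A.n ∧ A.h.getD (k - 1) 0 < A.h.getD k 0

/-- all Hodge defects are at most two -/
def SmallDefects (A : IntSystem K ℓ) : Prop := ∀ k, A.Vertex k → A.w * k ≤ 2 * A.hp k + 2

/-- the representation and the character `χ` are continuous -/
def Cont (A : IntSystem K ℓ) (χ : GK K →* (PadicAlgCl ℓ)ˣ) : Prop :=
  (∀ i j, Continuous fun g : GK K => (A.ρ g : Matrix (Fin A.n) (Fin A.n) (PadicAlgCl ℓ)) i j) ∧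
  Continuous fun g : GK K => (χ g : PadicAlgCl ℓ)

/-- the Frobenius elements at `v` have characteristic polynomials `P v` and `χ = N v` -/
def Compat (A : IntSystem K ℓ) (χ : GK K →* (PadicAlgCl ℓ)ˣ) (S : Finset ℕ) : Prop :=
  ∀ v : HeightOneSpectrum (𝓞 K), IsDeg1 S v → ∀ γ : GK K, IsFrob v γ →
    (χ γ : PadicAlgCl ℓ) = (Ideal.absNorm v.asIdeal : PadicAlgCl ℓ) ∧
    (A.ρ γ : Matrix (Fin A.n) (Fin A.n) (PadicAlgCl ℓ)).charpoly =
      (A.P v).map (Int.castRingHom (PadicAlgCl ℓ))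

/-- the complex absolute values of the Frobenius eigenvalues are `(N v) ^ (w / 2)` -/
def Weil (A : IntSystem K ℓ) (S : Finset ℕ) : Prop :=
  ∀ v : HeightOneSpectrum (𝓞 K), IsDeg1 S v → ∀ α : ℂ,
    ((A.P v).map (Int.castRingHom ℂ)).IsRoot α → ‖α‖ ^ 2 = (Ideal.absNorm v.asIdeal : ℝ) ^ A.w

/-- If the Hodge polygon has a vertex, the representation is not potentially scalar (a potentially
scalar representation has a single Hodge-Tate weight). -/
def NonScalar (A : IntSystem K ℓ) (S : Finset ℕ) : Prop :=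
  (∃ k, A.Vertex k) → ∀ U : Subgroup (GK K), IsOpen (U : Set (GK K)) →
    ∃ v : HeightOneSpectrum (𝓞 K), IsDeg1 S v ∧ (∃ σ ∈ U, IsFrob v σ) ∧
      ∀ α : ℂ, (A.P v).map (Int.castRingHom ℂ) ≠ (X - C α) ^ A.n

/-- `v` is ordinary: at the vertices of the Hodge polygon the Newton polygon is not above it -/
def Ordinary (A : IntSystem K ℓ) (v : HeightOneSpectrum (𝓞 K)) : Prop :=
  ∀ k, A.Vertex k → ¬ (Ideal.absNorm v.asIdeal : ℤ) ^ (A.hp k + 1) ∣ (A.P v).coeff (A.n - k)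

end IntSystem

/-- The properties of the system attached to a pure motive with small Hodge defects, at the places of
degree one outside a finite set `S` of residue characteristics; `χ` is the cyclotomic character. -/
structure IsIntSystem {K : Type} [Field K] [NumberField K] {ℓ : ℕ} [Fact ℓ.Prime]
    (A : IntSystem K ℓ) (χ : GK K →* (PadicAlgCl ℓ)ˣ) (S : Finset ℕ) : Prop where
  monic : ∀ v, IsDeg1 S v → (A.P v).Monic ∧ (A.P v).natDegree = A.n
  cont : A.Cont χ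
  compat : A.Compat χ S
  weil : A.Weil S
  small : A.SmallDefects
  nonScalar : A.NonScalar S

variable {K : Type} [Field K] [NumberField K] {ℓ : ℕ} [Fact ℓ.Prime]

/-- the possible values of the normalised coefficient at a non-ordinary place -/
theorem value {A : IntSystem K ℓ} {χ : GK K →* (PadicAlgCl ℓ)ˣ} {S : Finset ℕ}
    (hA : IsIntSystem A χ S) {v : HeightOneSpectrum (𝓞 K)} (hv : IsDeg1 S v) {k : ℕ}
    (hk : A.Vertex k)
    (hd : (Ideal.absNorm v.asIdeal : ℤ) ^ (A.hp k + 1) ∣ (A.P v).coeff (A.n - k)) :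
    ∃ c ∈ Finset.Icc (-(A.n.choose k : ℤ)) (A.n.choose k : ℤ),
      (A.P v).coeff (A.n - k) = c * (Ideal.absNorm v.asIdeal : ℤ) ^ (A.hp k + 1) := by
  obtain ⟨c, hc⟩ := hd
  have hp1 : (1 : ℝ) ≤ (Ideal.absNorm v.asIdeal : ℝ) := by exact_mod_cast hv.1.one_lt.le
  have hp0 : (0 : ℝ) < (Ideal.absNorm v.asIdeal : ℝ) := by linarith
  refine ⟨c, ?_, by rw [hc, mul_comm]⟩
  have h1 := norm_coeff_sq_le ((A.P v).map (Int.castRingHom ℂ)) A.n k hk.2.1.le
    ((hA.monic v hv).1.map _) (by rw [(hA.monic v hv).1.natDegree_map, (hA.monic v hv).2])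
    ((Ideal.absNorm v.asIdeal : ℝ) ^ A.w) (hA.weil v hv)
  rw [coeff_map, hc] at h1
  have h2 : ‖(Int.castRingHom ℂ) ((Ideal.absNorm v.asIdeal : ℤ) ^ (A.hp k + 1) * c)‖ ^ 2
      = (Ideal.absNorm v.asIdeal : ℝ) ^ (2 * A.hp k + 2) * (c : ℝ) ^ 2 := by
    rw [eq_intCast]
    push_cast
    rw [norm_mul, norm_pow, mul_pow, Complex.norm_intCast, sq_abs, Complex.norm_natCast, ← pow_mul]
    congr 2
    ring
  rw [h2, ← pow_mul] at h1
  have h3 : (Ideal.absNorm v.asIdeal : ℝ) ^ (A.w * k) ≤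
      (Ideal.absNorm v.asIdeal : ℝ) ^ (2 * A.hp k + 2) := pow_le_pow_right₀ hp1 (hA.small k hk)
  have h4 : (Ideal.absNorm v.asIdeal : ℝ) ^ (2 * A.hp k + 2) * (c : ℝ) ^ 2 ≤
      (Ideal.absNorm v.asIdeal : ℝ) ^ (2 * A.hp k + 2) * (A.n.choose k : ℝ) ^ 2 := by
    calc _ ≤ (A.n.choose k : ℝ) ^ 2 * (Ideal.absNorm v.asIdeal : ℝ) ^ (A.w * k) := h1
      _ ≤ (A.n.choose k : ℝ) ^ 2 * (Ideal.absNorm v.asIdeal : ℝ) ^ (2 * A.hp k + 2) := by gcongr
      _ = _ := mul_comm _ _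
  have h5 : (c : ℝ) ^ 2 ≤ (A.n.choose k : ℝ) ^ 2 := le_of_mul_le_mul_left h4 (by positivity)
  have h6 : |(c : ℝ)| ≤ (A.n.choose k : ℝ) := by
    exact abs_le_of_sq_le_sq h5 (by positivity)
  have h7 : |c| ≤ (A.n.choose k : ℤ) := by exact_mod_cast h6
  exact Finset.mem_Icc.mpr (abs_le.mp h7)

/-- the class functions -/
noncomputable def fn (A : IntSystem K ℓ) (χ : GK K →* (PadicAlgCl ℓ)ˣ) (k : ℕ) (c : ℤ) (g : GK K) :
    PadicAlgCl ℓ :=
  (A.ρ g : Matrix (Fin A.n) (Fin A.n) (PadicAlgCl ℓ)).charpoly.coeff (A.n - k)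
    - (c : PadicAlgCl ℓ) * (χ g : PadicAlgCl ℓ) ^ (A.hp k + 1)

theorem fn_frob {A : IntSystem K ℓ} {χ : GK K →* (PadicAlgCl ℓ)ˣ} {S : Finset ℕ}
    (hA : IsIntSystem A χ S) {v : HeightOneSpectrum (𝓞 K)} (hv : IsDeg1 S v) {σ : GK K}
    (hσ : IsFrob v σ) (k : ℕ) (c : ℤ) : fn A χ k c σ = 0 ↔
      (A.P v).coeff (A.n - k) = c * (Ideal.absNorm v.asIdeal : ℤ) ^ (A.hp k + 1) := by
  unfold fn
  rw [(hA.compat v hv σ hσ).1, (hA.compat v hv σ hσ).2, coeff_map, sub_eq_zero]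
  constructor
  · intro h
    have h1 : (((A.P v).coeff (A.n - k) : ℤ) : PadicAlgCl ℓ) =
        ((c * (Ideal.absNorm v.asIdeal : ℤ) ^ (A.hp k + 1) : ℤ) : PadicAlgCl ℓ) := by
      rw [← eq_intCast (Int.castRingHom (PadicAlgCl ℓ)), h]
      push_cast
      ring
    exact_mod_cast h1
  · intro h
    rw [h, eq_intCast]
    push_cast
    ring

/-- the algebra of regular functions -/
theorem exists_alg {A : IntSystem K ℓ} {χ : GK K →* (PadicAlgCl ℓ)ˣ} {S : Finset ℕ}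
    (hA : IsIntSystem A χ S) : ∃ B : Subalgebra (PadicAlgCl ℓ) (GK K → PadicAlgCl ℓ), B.FG ∧
      (∀ g : GK K, ∀ F ∈ B, (fun x => F (g * x)) ∈ B) ∧ (∀ F ∈ B, Continuous F) ∧
      ∀ k c, fn A χ k c ∈ B := by
  classical
  let ρ' : (ℚ →+* PadicAlgCl ℓ) → GK K →* Matrix.GeneralLinearGroup (Fin A.n) (PadicAlgCl ℓ) :=
    fun _ => A.ρ
  refine ⟨FA ρ' χ, ?_, trans_mem ρ' χ, cont_mem ρ' χ (fun _ => hA.cont.1) hA.cont.2, fun k c => ?_⟩
  · unfold FA
    rw [← Algebra.map_top]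
    exact Subalgebra.FG.map _ (Algebra.FiniteType.out)
  · have h1 : fn A χ k c = (fun g => (A.ρ g : Matrix (Fin A.n) (Fin A.n)
        (PadicAlgCl ℓ)).charpoly.coeff (A.n - k))
        - (c : PadicAlgCl ℓ) • (fun g => (χ g : PadicAlgCl ℓ)) ^ (A.hp k + 1) := by
      funext g
      rfl
    rw [h1]
    refine Subalgebra.sub_mem _ ?_ (Subalgebra.smul_mem _ (Subalgebra.pow_mem _ (char_mem ρ' χ) _) _)
    exact coeff_mem (FA ρ' χ) (fun g => (A.ρ g : Matrix (Fin A.n) (Fin A.n) (PadicAlgCl ℓ)))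
      (fun i j => entry_mem ρ' χ (Rat.castHom _) i j) (A.n - k)

theorem fn_conj (A : IntSystem K ℓ) (χ : GK K →* (PadicAlgCl ℓ)ˣ) (k : ℕ) (c : ℤ) (σ τ : GK K) :
    fn A χ k c (τ * σ * τ⁻¹) = fn A χ k c σ := by
  unfold fn
  have h1 : (χ (τ * σ * τ⁻¹) : (PadicAlgCl ℓ)ˣ) = χ σ := by
    rw [map_mul, map_mul, map_inv, mul_comm, inv_mul_cancel_left]
  rw [charpoly_conj, h1]

/-- at the identity no function vanishes on an open subgroup -/
theorem fn_one {A : IntSystem K ℓ} {χ : GK K →* (PadicAlgCl ℓ)ˣ} {S : Finset ℕ}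
    (hA : IsIntSystem A χ S) {k : ℕ} (hk : A.Vertex k) (c : ℤ) (U : Subgroup (GK K))
    (hU : IsOpen (U : Set (GK K))) : ¬ ∀ u ∈ U, fn A χ k c u = 0 := by
  intro h
  obtain ⟨v, hv, ⟨σ, hσU, hσ⟩, hns⟩ := hA.nonScalar ⟨k, hk⟩ U hU
  have h1 := (fn_frob hA hv hσ k c).mp (h σ hσU)
  have h2 := h 1 U.one_mem
  unfold fn at h2
  have h3 : ((A.ρ 1 : Matrix.GeneralLinearGroup (Fin A.n) (PadicAlgCl ℓ)) :
      Matrix (Fin A.n) (Fin A.n) (PadicAlgCl ℓ)) = 1 := by rw [map_one]; rfl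
  rw [h3, Matrix.charpoly_one, map_one, Units.val_one, one_pow, mul_one, sub_eq_zero] at h2
  -- the absolute value of `c`
  have hc : (c : ℤ) ^ 2 = (A.n.choose k : ℤ) ^ 2 := by
    have h4 : (c : PadicAlgCl ℓ) ^ 2 = ((A.n.choose k : ℕ) : PadicAlgCl ℓ) ^ 2 := by
      rw [← h2, Fintype.card_fin, show (X - 1 : Polynomial (PadicAlgCl ℓ)) = X + C (-1) by
        rw [C_neg, C_1, sub_eq_add_neg], coeff_X_add_C_pow, mul_pow, ← pow_mul,
        mul_comm (A.n - (A.n - k)) 2, pow_mul, neg_one_sq, one_pow, one_mul,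
        Nat.choose_symm hk.2.1.le]
    exact_mod_cast h4
  have hp1 : (1 : ℝ) ≤ (Ideal.absNorm v.asIdeal : ℝ) := by exact_mod_cast hv.1.one_lt.le
  have hp0 : (0 : ℝ) < (Ideal.absNorm v.asIdeal : ℝ) := by linarith
  have hm := (hA.monic v hv).1.map (Int.castRingHom ℂ)
  have hn : ((A.P v).map (Int.castRingHom ℂ)).natDegree = A.n := by
    rw [(hA.monic v hv).1.natDegree_map, (hA.monic v hv).2]
  have hle := norm_coeff_sq_le ((A.P v).map (Int.castRingHom ℂ)) A.n k hk.2.1.le hm hn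
    ((Ideal.absNorm v.asIdeal : ℝ) ^ A.w) (hA.weil v hv)
  have heq : ‖((A.P v).map (Int.castRingHom ℂ)).coeff (A.n - k)‖ ^ 2 =
      (A.n.choose k : ℝ) ^ 2 * (Ideal.absNorm v.asIdeal : ℝ) ^ (2 * A.hp k + 2) := by
    rw [coeff_map, h1, eq_intCast]
    push_cast
    rw [norm_mul, norm_pow, mul_pow, Complex.norm_intCast, sq_abs, Complex.norm_natCast, ← pow_mul]
    have h5 : (c : ℝ) ^ 2 = (A.n.choose k : ℝ) ^ 2 := by exact_mod_cast hc
    rw [h5]
    congr 2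
    ring
  have hge : (A.n.choose k : ℝ) ^ 2 * ((Ideal.absNorm v.asIdeal : ℝ) ^ A.w) ^ k ≤
      (A.n.choose k : ℝ) ^ 2 * (Ideal.absNorm v.asIdeal : ℝ) ^ (2 * A.hp k + 2) := by
    rw [← pow_mul]
    gcongr
    exact hA.small k hk
  obtain ⟨a, ha⟩ := scalar_of_norm_coeff _ A.n k hk.1 hk.2.1 hm hn
    ((Ideal.absNorm v.asIdeal : ℝ) ^ A.w) (by positivity) (hA.weil v hv)
    (le_antisymm hle (hge.trans heq.ge))
  exact hns a ha

/-- The set of the elements on no coset of which one of the class functions vanishes. -/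
def good {ι : Type} (A : ι → IntSystem K ℓ) (χ : GK K →* (PadicAlgCl ℓ)ˣ) (U : Subgroup (GK K)) :
    Set (GK K) :=
  {g | ∀ i k, (A i).Vertex k → ∀ c ∈ Finset.Icc (-((A i).n.choose k : ℤ)) ((A i).n.choose k : ℤ),
    ¬ ∀ u ∈ U, fn (A i) χ k c (g * u) = 0}

theorem good_inv {ι : Type} (A : ι → IntSystem K ℓ) (χ : GK K →* (PadicAlgCl ℓ)ˣ)
    (U : Subgroup (GK K)) : ∀ σ ∈ good A χ U, ∀ u ∈ U, σ * u ∈ good A χ U := by
  intro σ hσ u hu i k hk c hc h
  refine hσ i k hk c hc fun w hw => ?_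
  have := h (u⁻¹ * w) (U.mul_mem (U.inv_mem hu) hw)
  rwa [← mul_assoc, mul_assoc σ u, mul_inv_cancel, mul_one] at this

theorem good_conj {ι : Type} (A : ι → IntSystem K ℓ) (χ : GK K →* (PadicAlgCl ℓ)ˣ)
    (U : Subgroup (GK K)) [hU : U.Normal] : ∀ σ ∈ good A χ U, ∀ τ, τ * σ * τ⁻¹ ∈ good A χ U := by
  intro σ hσ τ i k hk c hc h
  refine hσ i k hk c hc fun u hu => ?_
  have h1 := h (τ * u * τ⁻¹) (hU.conj_mem u hu τ)
  have h2 : τ * σ * τ⁻¹ * (τ * u * τ⁻¹) = τ * (σ * u) * τ⁻¹ := by group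
  rw [h2, fn_conj] at h1
  exact h1

/-- the Frobenius elements at an ordinary place are in the good set -/
theorem good_of_ordinary {ι : Type} {A : ι → IntSystem K ℓ} {χ : GK K →* (PadicAlgCl ℓ)ˣ}
    {S : Finset ℕ} (hA : ∀ i, IsIntSystem (A i) χ S) {v : HeightOneSpectrum (𝓞 K)}
    (hv : IsDeg1 S v) (ho : ∀ i, (A i).Ordinary v) (U : Subgroup (GK K)) {σ : GK K}
    (hσ : IsFrob v σ) : σ ∈ good A χ U := by
  intro i k hk c _ h
  have h1 := h 1 U.one_mem
  rw [mul_one, fn_frob (hA i) hv hσ] at h1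
  exact ho i k hk ⟨c, by rw [h1, mul_comm]⟩

/-- The set of the ordinary places is Frobenian, up to a set of density zero. -/
theorem frobenian {ι : Type} [Finite ι] (A : ι → IntSystem K ℓ) (χ : GK K →* (PadicAlgCl ℓ)ˣ)
    (S : Finset ℕ) (hA : ∀ i, IsIntSystem (A i) χ S) :
    ∃ (U : Subgroup (GK K)) (C : Set (GK K)), U.Normal ∧ IsOpen (U : Set (GK K)) ∧
      (U : Set (GK K)) ⊆ C ∧ (∀ σ ∈ C, ∀ τ, τ * σ * τ⁻¹ ∈ C) ∧ (∀ σ ∈ C, ∀ u ∈ U, σ * u ∈ C) ∧
      (∀ v, IsDeg1 S v → (∀ i, (A i).Ordinary v) → ∀ σ, IsFrob v σ → σ ∈ C) ∧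
      Tendsto (dens fun v : HeightOneSpectrum (𝓞 K) => (∃ σ ∈ C, IsFrob v σ) ∧
        ¬ (IsDeg1 S v ∧ ∀ i, (A i).Ordinary v)) atTop (𝓝 0) := by
  classical
  cases nonempty_fintype ι
  choose B hfg htr hct hfn using fun i => exists_alg (hA i)
  have hno : ∀ i, IsNoetherianRing (B i) := by
    intro i
    have : Algebra.FiniteType (PadicAlgCl ℓ) (B i) := (Subalgebra.fg_iff_finiteType _).mp (hfg i)
    exact Algebra.FiniteType.isNoetherianRing (PadicAlgCl ℓ) (B i)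
  choose V₀ hV₀o hV₀ using fun i => uniform (B i) (htr i)
  obtain ⟨U, hUV⟩ : ∃ U : OpenNormalSubgroup (GK K), (U : Set (GK K)) ⊆ ⋂ i, (V₀ i : Set (GK K)) := by
    refine ProfiniteGrp.exist_openNormalSubgroup_sub_open_nhds_of_one
      (isOpen_iInter_of_finite fun i => hV₀o i) ?_
    exact Set.mem_iInter.mpr fun i => (V₀ i).one_mem
  have hUn : (U : Subgroup (GK K)).Normal := inferInstance
  have hUo : IsOpen ((U : Subgroup (GK K)) : Set (GK K)) := U.toOpenSubgroup.isOpen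
  have hUle : ∀ i, (U : Subgroup (GK K)) ≤ V₀ i := fun i x hx => Set.mem_iInter.mp (hUV hx) i
  have hone : (1 : GK K) ∈ good A χ U := by
    intro i k hk c _ h
    refine fn_one (hA i) hk c U hUo fun u hu => ?_
    have := h u hu
    rwa [one_mul] at this
  refine ⟨U, good A χ U, hUn, hUo, ?_, good_conj A χ U, good_inv A χ U,
    fun v hv hall σ hσ => good_of_ordinary hA hv hall U hσ, ?_⟩
  · intro u hu
    have := good_inv A χ U 1 hone u hu
    rwa [one_mul] at this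
  -- the exceptional places
  let B' : Option (ι × ℕ × ℤ) → HeightOneSpectrum (𝓞 K) → Prop := fun o v => match o with
    | none => ¬ IsDeg1 S v
    | some (i, k, c) => ∃ σ ∈ {g : GK K | g ∈ {g : GK K | ¬ ∀ u ∈ (U : Subgroup (GK K)),
        fn (A i) χ k c (g * u) = 0} ∧ fn (A i) χ k c g = 0}, IsFrob v σ
  let T : Finset (Option (ι × ℕ × ℤ)) := Finset.insertNone (Finset.univ.biUnion fun i : ι =>
    (Finset.range (A i).n).biUnion fun k =>
      (Finset.Icc (-((A i).n.choose k : ℤ)) ((A i).n.choose k : ℤ)).image fun c => (i, k, c))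
  have hB := dens_biUnion T B' (by
    rintro (_ | ⟨i, k, c⟩) _
    · exact Pool.Agent.TH30.Ord.dens_not_deg1 S
    · exact coset_dens (B i) (hfg i) (htr i) (hct i) (V₀ i) (hV₀ i) U hUo (hUle i)
        (fn (A i) χ k c) (hfn i k c) (fn_conj (A i) χ k c))
  refine squeeze_zero (fun N => dens_nonneg _ _) (fun N => dens_mono ?_ N) hB
  rintro v ⟨⟨σ, hσ, hσv⟩, hno⟩
  by_cases hv : IsDeg1 S v
  · by_cases hall : ∀ i, (A i).Ordinary v
    · exact absurd ⟨hv, hall⟩ hno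
    · unfold IntSystem.Ordinary at hall
      push Not at hall
      obtain ⟨i, k, hk, hd⟩ := hall
      obtain ⟨c, hc, hval⟩ := value (hA i) hv hk hd
      refine ⟨some (i, k, c), ?_, σ, ⟨hσ i k hk c hc, (fn_frob (hA i) hv hσv k c).mpr hval⟩, hσv⟩
      rw [Finset.some_mem_insertNone, Finset.mem_biUnion]
      refine ⟨i, Finset.mem_univ _, Finset.mem_biUnion.mpr ⟨k, Finset.mem_range.mpr hk.2.1, ?_⟩⟩
      exact Finset.mem_image.mpr ⟨c, hc, rfl⟩
  · exact ⟨none, Finset.none_mem_insertNone, hv⟩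

/-- The density of a Frobenian set. -/
theorem density_of (Q : HeightOneSpectrum (𝓞 K) → Prop) (U : Subgroup (GK K)) [U.Normal]
    (hU : IsOpen (U : Set (GK K))) (C : Set (GK K))
    (hconj : ∀ σ ∈ C, ∀ τ, τ * σ * τ⁻¹ ∈ C) (hinv : ∀ σ ∈ C, ∀ u ∈ U, σ * u ∈ C)
    (h1 : ∀ v, Q v → ∃ σ ∈ C, IsFrob v σ)
    (h2 : Tendsto (dens fun v : HeightOneSpectrum (𝓞 K) => (∃ σ ∈ C, IsFrob v σ) ∧ ¬ Q v)
      atTop (𝓝 0)) :
    Tendsto (ratio Q) atTop
      (𝓝 ((((QuotientGroup.mk : GK K → GK K ⧸ U) '' C).ncard : ℝ) / (U.index : ℝ))) := by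
  have hcheb := chebK K U hU C hconj hinv
  apply ratio_tendsto
  refine tendsto_of_tendsto_of_tendsto_of_le_of_le (by
    have := hcheb.sub h2
    rwa [sub_zero] at this) hcheb (fun N => ?_) (fun N => dens_mono h1 N)
  rw [sub_le_iff_le_add]
  refine (dens_mono ?_ N).trans (dens_or _ _ N)
  intro v hv
  by_cases hq : Q v
  · exact Or.inl hq
  · exact Or.inr ⟨hv, hq⟩

end Pool.Agent.Y162.FD
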