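import Pool.Agent.W528.Ord.AllEll

/-!
The Newton polygon is the Hodge polygon if and only if the coefficients at the vertices are not divisible
by a further power of `p`.
-/

set_option autoImplicit false

namespace Pool.Agent.Y162.FD

open Polynomial Pool.Agent.W528.Ord

theorem strict_max (q r : ℝ) (hq0 : 0 < q) (hq1 : q < 1) (hr0 : 0 < r) (l : List ℕ)
    (hl : l.Pairwise (· ≤ ·)) (k : ℕ) (hk0 : 0 < k) (hk : k < l.length)
    (hr1 : q ^ l.getD k 0 < r) (hr2 : r < q ^ l.getD (k - 1) 0) (j : ℕ) (hj : j ≤ l.length)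
    (hjk : j ≠ k) : q ^ (l.take j).sum * r ^ (l.length - j) <
      q ^ (l.take k).sum * r ^ (l.length - k) := by
  have hmono : ∀ a b, a ≤ b → b < l.length → l.getD a 0 ≤ l.getD b 0 := by
    intro a b hab hb
    rw [List.getD_eq_getElem _ _ (by omega), List.getD_eq_getElem _ _ hb]
    rcases Nat.lt_or_ge a b with h | h
    · exact List.pairwise_iff_getElem.mp hl a b _ _ h
    · have : a = b := by omega
      subst this
      exact le_rfl
  have hstep : ∀ i, i < l.length → (l.take (i + 1)).sum = (l.take i).sum + l.getD i 0 := by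
    intro i hi
    rw [List.sum_take_succ l i hi, List.getD_eq_getElem _ _ hi]
  have up : ∀ i, i < k → q ^ (l.take i).sum * r ^ (l.length - i) <
      q ^ (l.take (i + 1)).sum * r ^ (l.length - (i + 1)) := by
    intro i hi
    rw [hstep i (by omega), pow_add, show l.length - i = (l.length - (i + 1)) + 1 by omega, pow_succ]
    have h1 : r < q ^ l.getD i 0 :=
      hr2.trans_le (pow_le_pow_of_le_one hq0.le hq1.le (hmono i (k - 1) (by omega) (by omega)))
    have h2 : 0 < q ^ (l.take i).sum * r ^ (l.length - (i + 1)) := by positivity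
    nlinarith
  have down : ∀ i, k ≤ i → i < l.length → q ^ (l.take (i + 1)).sum * r ^ (l.length - (i + 1)) <
      q ^ (l.take i).sum * r ^ (l.length - i) := by
    intro i hi hil
    rw [hstep i hil, pow_add, show l.length - i = (l.length - (i + 1)) + 1 by omega, pow_succ]
    have h1 : q ^ l.getD i 0 < r :=
      (pow_le_pow_of_le_one hq0.le hq1.le (hmono k i hi hil)).trans_lt hr1
    have h2 : 0 < q ^ (l.take i).sum * r ^ (l.length - (i + 1)) := by positivity
    nlinarith
  rcases lt_or_gt_of_ne hjk with h | h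
  · have : ∀ m, j + 1 ≤ m → m ≤ k → q ^ (l.take j).sum * r ^ (l.length - j) <
        q ^ (l.take m).sum * r ^ (l.length - m) := by
      intro m hm
      induction m, hm using Nat.le_induction with
      | base => intro hk'; exact up j (by omega)
      | succ m hm ih => intro hk'; exact (ih (by omega)).trans (up m (by omega))
    exact this k h le_rfl
  · have : ∀ m, k + 1 ≤ m → m ≤ l.length → q ^ (l.take m).sum * r ^ (l.length - m) <
        q ^ (l.take k).sum * r ^ (l.length - k) := by
      intro m hm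
      induction m, hm using Nat.le_induction with
      | base => intro hk'; exact down k le_rfl (by omega)
      | succ m hm ih => intro hk'; exact (down m (by omega) (by omega)).trans (ih (by omega))
    exact this j h hj

section

variable {L : Type*} [NormedField L] [IsUltrametricDist L]

/-- If the absolute values of the roots are given by the slopes `l`, the coefficients at the vertices
are as large as possible. -/
theorem coeff_vertex (f : L[X]) (n : ℕ) (hm : f.Monic) (hs : f.Splits)
    (hn : f.natDegree = n) (q : ℝ) (hq0 : 0 < q) (hq1 : q < 1) (l : List ℕ)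
    (hl : l.Pairwise (· ≤ ·)) (hlen : l.length = n)
    (hle : ∀ k ≤ n, ‖f.coeff (n - k)‖ ≤ q ^ (l.take k).sum)
    (hroots : f.roots.map (fun y => ‖y‖) = ((l.map (fun a => q ^ a) : List ℝ) : Multiset ℝ))
    (k : ℕ) (hk0 : 0 < k) (hk : k < n) (hv : l.getD (k - 1) 0 < l.getD k 0) :
    ¬ ‖f.coeff (n - k)‖ ≤ q ^ ((l.take k).sum + 1) := by
  classical
  intro hcon
  set v : AbsoluteValue L ℝ := NormedField.toAbsoluteValue L with hvdef
  have hvn : ∀ x : L, v x = ‖x‖ := fun x => rfl
  have hna : IsNonarchimedean v := fun x y => IsUltrametricDist.norm_add_le_max x y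
  have hprod : f = (f.roots.map fun y => X - C y).prod := by
    conv_lhs => rw [hs.eq_prod_roots, hm.leadingCoeff, C_1, one_mul]
  obtain ⟨r, hr1, hr2⟩ : ∃ r, q ^ l.getD k 0 < r ∧ r < q ^ l.getD (k - 1) 0 :=
    exists_between (pow_lt_pow_right_of_lt_one₀ hq0 hq1 hv)
  have hr0 : 0 < r := lt_trans (by positivity) hr1
  have h1 := Pool.Agent.W518.DN.gn_linear (v := v) hna hr0 f.roots
  rw [← hprod] at h1
  have h2 : (f.roots.map fun y => max r (v y)).prod = (l.map fun a => max r (q ^ a)).prod := by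
    have h3 : (f.roots.map fun y => max r (v y)) = (f.roots.map fun y => ‖y‖).map fun x => max r x := by
      rw [Multiset.map_map]
      rfl
    rw [h3, hroots, Multiset.map_coe, Multiset.prod_coe, List.map_map]
    rfl
  rw [h2] at h1
  have h4 : q ^ (l.take k).sum * r ^ (n - k) ≤ (l.map fun a => max r (q ^ a)).prod := by
    have h5 : (l.map fun a => max r (q ^ a)).prod = ((l.take k).map fun a => max r (q ^ a)).prod *
        ((l.drop k).map fun a => max r (q ^ a)).prod := by
      rw [← List.prod_append, ← List.map_append, List.take_append_drop]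
    rw [h5]
    have h6 := prod_max_ge q r hq0 hr0 (l.take k)
    have h7 := prod_max_ge q r hq0 hr0 (l.drop k)
    have h8 : (l.drop k).length = n - k := by
      rw [List.length_drop, hlen]
    rw [h8] at h7
    exact mul_le_mul h6.1 h7.2.1 (by positivity) h6.2.2.le
  rw [← h1] at h4
  obtain ⟨i, hi⟩ := f.exists_eq_gaussNorm v r
  rw [hi, hvn] at h4
  have hpos : 0 < q ^ (l.take k).sum * r ^ (n - k) := by positivity
  by_cases hin : i ≤ n
  · by_cases hik : n - i = k
    · have h9 : i = n - k := by omega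
      rw [h9] at h4
      have h10 : ‖f.coeff (n - k)‖ * r ^ (n - k) ≤ q ^ ((l.take k).sum + 1) * r ^ (n - k) := by
        gcongr
      have h11 : q ^ ((l.take k).sum + 1) * r ^ (n - k) < q ^ (l.take k).sum * r ^ (n - k) := by
        rw [pow_succ]
        nlinarith
      linarith
    · have h9 := strict_max q r hq0 hq1 hr0 l hl k hk0 (by omega) hr1 hr2 (n - i) (by omega) hik
      rw [hlen] at h9
      have h10 := hle (n - i) (by omega)
      rw [show n - (n - i) = i by omega] at h9 h10
      have h11 : ‖f.coeff i‖ * r ^ i ≤ q ^ (l.take (n - i)).sum * r ^ i := by gcongr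
      linarith
  · have : f.coeff i = 0 := coeff_eq_zero_of_natDegree_lt (by omega)
    rw [this, norm_zero, zero_mul] at h4
    linarith

end

section

variable {p : ℕ} [hp : Fact p.Prime]

theorem norm_int_le {a : ℤ} {m : ℕ} (h : (p : ℤ) ^ m ∣ a) :
    ‖((a : ℤ) : PadicAlgCl p)‖ ≤ (1 / (p : ℝ)) ^ m := by
  obtain ⟨b, rfl⟩ := h
  rw [Int.cast_mul, Int.cast_pow, Int.cast_natCast, norm_mul, norm_pow, norm_p]
  have h1 : ‖((b : ℤ) : PadicAlgCl p)‖ ≤ 1 := IsUltrametricDist.norm_intCast_le_one _ _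
  have h3 : 0 ≤ (1 / (p : ℝ)) ^ m := by positivity
  nlinarith

theorem norm_int_eq {a : ℤ} {m : ℕ} (h : (p : ℤ) ^ m ∣ a) (h' : ¬ (p : ℤ) ^ (m + 1) ∣ a) :
    ‖((a : ℤ) : PadicAlgCl p)‖ = (1 / (p : ℝ)) ^ m := by
  obtain ⟨b, rfl⟩ := h
  rw [Int.cast_mul, Int.cast_pow, Int.cast_natCast, norm_mul, norm_pow, norm_p]
  have h1 : ¬ (p : ℤ) ∣ b := fun ⟨c, hc⟩ => h' ⟨c, by rw [hc, pow_succ]; ring⟩
  have h2 : ‖((b : ℤ) : PadicAlgCl p)‖ = 1 := by
    have h3 : ((b : ℤ) : PadicAlgCl p) = algebraMap ℚ_[p] (PadicAlgCl p) (b : ℚ_[p]) := by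
      rw [map_intCast]
    rw [h3]
    rw [norm_algebraMap']
    refine le_antisymm (Padic.norm_int_le_one b) (not_lt.mp fun hlt => h1 ?_)
    exact Padic.norm_intCast_lt_one_iff.mp hlt
  rw [h2, mul_one]

/-- **Newton and Hodge polygons** -/
theorem newton_iff (F : ℤ[X]) (n : ℕ) (hm : F.Monic) (hn : F.natDegree = n) (l : List ℕ)
    (hl : l.Pairwise (· ≤ ·)) (hlen : l.length = n)
    (hdvd : ∀ k ≤ n, (p : ℤ) ^ (l.take k).sum ∣ F.coeff (n - k))
    (hend : |F.coeff 0| = (p : ℤ) ^ l.sum) :
    NewtonSlopes p F (l : Multiset ℕ) ↔ ∀ k, 0 < k → k < n → l.getD (k - 1) 0 < l.getD k 0 →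
      ¬ (p : ℤ) ^ ((l.take k).sum + 1) ∣ F.coeff (n - k) := by
  have hp1 : (1 : ℝ) < p := by exact_mod_cast hp.out.one_lt
  have hq0 : 0 < 1 / (p : ℝ) := by positivity
  have hq1 : 1 / (p : ℝ) < 1 := by
    rw [div_lt_one (by linarith)]
    exact hp1
  have hle : ∀ k ≤ n, ‖(F.map (Int.castRingHom (PadicAlgCl p))).coeff (n - k)‖ ≤
      (1 / (p : ℝ)) ^ (l.take k).sum := by
    intro k hk
    rw [coeff_map, eq_intCast]
    exact norm_int_le (hdvd k hk)
  have hmap : (((l : Multiset ℕ)).map fun a => (1 / (p : ℝ)) ^ a) =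
      ((l.map (fun a => (1 / (p : ℝ)) ^ a) : List ℝ) : Multiset ℝ) := Multiset.map_coe _ _
  constructor
  · rintro ⟨_, h⟩ k hk0 hk hv hd
    rw [hmap] at h
    refine coeff_vertex (F.map (Int.castRingHom (PadicAlgCl p))) n (hm.map _) (IsAlgClosed.splits _)
      (by rw [hm.natDegree_map, hn]) _ hq0 hq1 l hl hlen hle h k hk0 hk hv ?_
    rw [coeff_map, eq_intCast]
    exact norm_int_le hd
  · intro h
    refine ⟨hp, ?_⟩
    rw [hmap]
    refine roots_norm _ n (hm.map _) (by rw [hm.natDegree_map, hn]) (IsAlgClosed.splits _) _ hq0 hq1 l hl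
      hlen hle ?_ ?_
    · intro k hk0 hk hv
      rw [coeff_map, eq_intCast]
      exact norm_int_eq (hdvd k hk.le) (h k hk0 hk hv)
    · rw [coeff_map, eq_intCast]
      have h1 : ‖((F.coeff 0 : ℤ) : PadicAlgCl p)‖ = ‖((|F.coeff 0| : ℤ) : PadicAlgCl p)‖ := by
        rcases abs_choice (F.coeff 0) with h | h
        · rw [h]
        · rw [h, Int.cast_neg, norm_neg]
      rw [h1, hend, Int.cast_pow, Int.cast_natCast, norm_pow, norm_p]

end

end Pool.Agent.Y162.FD
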