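import Pool.Agent.Y162.FD.Frob
import Pool.Agent.Y162.FD.Newt

/-!
Motives with small Hodge defects: the Newton polygons for all primes `ℓ'` and all embeddings.
-/

set_option autoImplicit false

namespace Pool.Agent.Y162.FD

open NumberField IsDedekindDomain Filter Topology Polynomial
open Pool.Agent.W401.Cheb Pool.Agent.W528.Ord
open Pool.Agent.W528.Ord.MultSystem (IsDeg1)

variable {K : Type} [Field K] [NumberField K] {ℓ : ℕ} [Fact ℓ.Prime]

namespace IntSystem

/-- the slopes are in increasing order, their number is the rank, and Hodge symmetry -/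
def Hodge (A : IntSystem K ℓ) : Prop :=
  A.h.Pairwise (· ≤ ·) ∧ A.h.length = A.n ∧ 2 * A.h.sum = A.w * A.n

/-- Mazur: the Newton polygons lie on or above the Hodge polygon -/
def Mazur (A : IntSystem K ℓ) (S : Finset ℕ) : Prop :=
  ∀ v : HeightOneSpectrum (𝓞 K), IsDeg1 S v → ∀ k ≤ A.n,
    (Ideal.absNorm v.asIdeal : ℤ) ^ A.hp k ∣ (A.P v).coeff (A.n - k)

end IntSystem

/-- The properties of the system attached to a pure motive with small Hodge defects. -/
structure IsSmallMotive (A : IntSystem K ℓ) (χ : GK K →* (PadicAlgCl ℓ)ˣ) (S : Finset ℕ) : Prop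
    extends IsIntSystem A χ S where
  hodge : A.Hodge
  mazur : A.Mazur S

theorem abs_coeff_zero {A : IntSystem K ℓ} {χ : GK K →* (PadicAlgCl ℓ)ˣ} {S : Finset ℕ}
    (hA : IsSmallMotive A χ S) {v : HeightOneSpectrum (𝓞 K)} (hv : IsDeg1 S v) :
    |(A.P v).coeff 0| = (Ideal.absNorm v.asIdeal : ℤ) ^ A.h.sum := by
  have hm := (hA.monic v hv).1.map (Int.castRingHom ℂ)
  have hn : ((A.P v).map (Int.castRingHom ℂ)).natDegree = A.n := by
    rw [(hA.monic v hv).1.natDegree_map, (hA.monic v hv).2]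
  obtain ⟨r, hr⟩ := exists_fin _ A.n hm hn
  have hri : ∀ i, ‖r i‖ ^ 2 = (Ideal.absNorm v.asIdeal : ℝ) ^ A.w := by
    intro i
    have h1 : ((A.P v).map (Int.castRingHom ℂ)).IsRoot (- r i) := by
      rw [hr, IsRoot, eval_prod]
      exact Finset.prod_eq_zero (Finset.mem_univ i) (by simp)
    have h2 := hA.weil v hv _ h1
    rwa [norm_neg] at h2
  have h0 : (((A.P v).coeff 0 : ℤ) : ℂ) = ∏ i, r i := by
    have h1 : ((A.P v).map (Int.castRingHom ℂ)).coeff 0 = ∏ i, r i := by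
      rw [hr, coeff_zero_eq_eval_zero, eval_prod]
      simp
    rw [coeff_map, eq_intCast] at h1
    exact h1
  have h3 : ((|(A.P v).coeff 0| : ℤ) : ℝ) ^ 2 = ((Ideal.absNorm v.asIdeal : ℝ) ^ A.h.sum) ^ 2 := by
    rw [Int.cast_abs, ← Complex.norm_intCast, h0, norm_prod, ← Finset.prod_pow,
      Finset.prod_congr rfl (fun i _ => hri i), Finset.prod_const, Finset.card_univ,
      Fintype.card_fin, ← pow_mul, ← pow_mul, ← hA.hodge.2.2, mul_comm]
  have h4 : ((|(A.P v).coeff 0| : ℤ) : ℝ) = (Ideal.absNorm v.asIdeal : ℝ) ^ A.h.sum := by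
    refine (sq_eq_sq₀ ?_ (by positivity)).mp h3
    exact_mod_cast abs_nonneg _
  exact_mod_cast h4

theorem newton_ordinary {A : IntSystem K ℓ} {χ : GK K →* (PadicAlgCl ℓ)ˣ} {S : Finset ℕ}
    (hA : IsSmallMotive A χ S) {v : HeightOneSpectrum (𝓞 K)} (hv : IsDeg1 S v) :
    NewtonSlopes (Ideal.absNorm v.asIdeal) (A.P v) (A.h : Multiset ℕ) ↔ A.Ordinary v := by
  obtain ⟨p, hpe⟩ : ∃ p, Ideal.absNorm v.asIdeal = p := ⟨_, rfl⟩
  have hpp : p.Prime := hpe ▸ hv.1
  have : Fact p.Prime := ⟨hpp⟩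
  have hm := hA.mazur v hv
  have h0 := abs_coeff_zero hA hv
  unfold IntSystem.Ordinary
  rw [hpe] at hm h0 ⊢
  rw [newton_iff (A.P v) A.n (hA.monic v hv).1 (hA.monic v hv).2 A.h hA.hodge.1 hA.hodge.2.1 hm h0]
  constructor
  · intro h k hk
    exact h k hk.1 hk.2.1 hk.2.2
  · intro h k h1 h2 h3
    exact h k ⟨h1, h2, h3⟩

/-- the converse of `newtonTau_of` -/
theorem newtonSlopes_of {ℓ' p : ℕ} [Fact ℓ'.Prime] [hp : Fact p.Prime] {r : ℕ}
    (M : Matrix (Fin r) (Fin r) ℚ_[ℓ']) (τ : algebraicClosure ℚ (PadicAlgCl ℓ') →+* PadicAlgCl p)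
    (H : Multiset ℕ) (F : ℤ[X]) (hM : M.charpoly = F.map (Int.castRingHom ℚ_[ℓ']))
    (h : NewtonTau M τ H) : NewtonSlopes p F H := by
  obtain ⟨e, he1, he2⟩ := h
  have : IsAlgClosed (algebraicClosure ℚ (PadicAlgCl ℓ')) :=
    (algebraicClosure.isAlgClosure ℚ (PadicAlgCl ℓ')).isAlgClosed
  have h1 : e = (F.map (Int.castRingHom (algebraicClosure ℚ (PadicAlgCl ℓ')))).roots := by
    apply Multiset.map_injective
      (algebraMap (algebraicClosure ℚ (PadicAlgCl ℓ')) (PadicAlgCl ℓ')).injective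
    rw [he1, ← Splits.roots_map (IsAlgClosed.splits _), Polynomial.map_map, hM, Polynomial.map_map]
    congr 2
  refine ⟨hp, ?_⟩
  have h2 : (F.map (Int.castRingHom (PadicAlgCl p))).roots = e.map τ := by
    rw [h1, ← Splits.roots_map (IsAlgClosed.splits _), Polynomial.map_map]
    congr 2
    exact RingHom.ext_int _ _
  rw [h2, Multiset.map_map]
  exact he2

theorem exists_embedding (ℓ' p : ℕ) [Fact ℓ'.Prime] [Fact p.Prime] :
    Nonempty (algebraicClosure ℚ (PadicAlgCl ℓ') →+* PadicAlgCl p) := by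
  have : Algebra.IsAlgebraic ℚ (algebraicClosure ℚ (PadicAlgCl ℓ')) :=
    algebraicClosure.isAlgebraic ℚ (PadicAlgCl ℓ')
  exact ⟨(IsAlgClosed.lift (R := ℚ) (S := algebraicClosure ℚ (PadicAlgCl ℓ'))
    (M := PadicAlgCl p)).toRingHom⟩

end Pool.Agent.Y162.FD
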