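import Pool.Agent.Y162.FD.Mot
import Pool.Agent.Y161.Ord.Local

/-!
Ordinary places and tensor constructions over finite extensions.
-/

set_option autoImplicit false

namespace Pool.Agent.Y162.FD

open NumberField IsDedekindDomain Filter Topology Polynomial
open Pool.Agent.W401.Cheb Pool.Agent.W528.Ord Pool.Agent.Y161.Ord
open Pool.Agent.W528.Ord.MultSystem (IsDeg1)

/-- the class of the `f`-th powers -/
noncomputable def pw {M : Type*} [CommMonoid M] (f : ℕ) : MonoidAlgebra ℕ M →+* MonoidAlgebra ℕ M :=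
  MonoidAlgebra.mapDomainRingHom ℕ (powMonoidHom f : M →* M)

theorem pw_cls {M : Type*} [CommMonoid M] (f : ℕ) (s : Multiset M) :
    pw f (cls s) = cls (s.map fun x => x ^ f) := by
  unfold pw
  rw [map_cls]
  rfl

theorem mx_pow (M : Multiset ℝ) (hM : ∀ x ∈ M, 0 < x) (f : ℕ) {r : ℝ} (hr : 0 < r) :
    mx (M.map fun x => x ^ f) (r ^ f) = mx M r ^ f := by
  induction M using Multiset.induction_on with
  | empty => simp [mx_zero]
  | cons a s ih =>
    have ha : 0 < a := hM a (Multiset.mem_cons_self _ _)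
    rw [Multiset.map_cons, mx_cons, mx_cons, ih (fun x hx => hM x (Multiset.mem_cons_of_mem hx)), mul_pow]
    congr 1
    rcases le_total r a with h | h
    · rw [max_eq_right h, max_eq_right (pow_le_pow_left₀ hr.le h f)]
    · rw [max_eq_left h, max_eq_left (pow_le_pow_left₀ ha.le h f)]

theorem mx_pow_le {M N : Multiset ℝ} (hM : ∀ x ∈ M, 0 < x) (hN : ∀ x ∈ N, 0 < x) {f : ℕ} (hf : 0 < f)
    (h : ∀ r : ℝ, 0 < r → mx M r ≤ mx N r) (r : ℝ) (hr : 0 < r) :
    mx (M.map fun x => x ^ f) r ≤ mx (N.map fun x => x ^ f) r := by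
  have hs : 0 < r ^ (1 / (f : ℝ)) := Real.rpow_pos_of_pos hr _
  have e : r = (r ^ (1 / (f : ℝ))) ^ f := by
    rw [← Real.rpow_natCast, ← Real.rpow_mul hr.le, one_div, inv_mul_cancel₀ (by positivity), Real.rpow_one]
  rw [e, mx_pow M hM f hs, mx_pow N hN f hs]
  exact pow_le_pow_left₀ (mx_pos M hs).le (h _ hs) f

theorem pow_map_inj {M N : Multiset ℝ} (hM : ∀ x ∈ M, 0 < x) (hN : ∀ x ∈ N, 0 < x) {f : ℕ} (hf : 0 < f)
    (h : (M.map fun x => x ^ f) = N.map fun x => x ^ f) : M = N := by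
  have key : ∀ L : Multiset ℝ, (∀ x ∈ L, 0 < x) →
      (L.map fun x => x ^ f).map (fun x => x ^ (1 / (f : ℝ))) = L := by
    intro L hL
    rw [Multiset.map_map]
    conv_rhs => rw [← Multiset.map_id L]
    apply Multiset.map_congr rfl
    intro x hx
    have hx0 := hL x hx
    show (x ^ f) ^ (1 / (f : ℝ)) = x
    rw [← Real.rpow_natCast, ← Real.rpow_mul hx0.le, one_div, mul_inv_cancel₀ (by positivity), Real.rpow_one]
  rw [← key M hM, h, key N hN]

section integer

variable {p : ℕ} [hp : Fact p.Prime]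

theorem norm_int_le' (f : ℕ) {a : ℤ} {m : ℕ} (h : ((p ^ f : ℕ) : ℤ) ^ m ∣ a) :
    ‖((a : ℤ) : PadicAlgCl p)‖ ≤ ((1 / (p : ℝ)) ^ f) ^ m := by
  rw [← pow_mul]
  apply Pool.Agent.Y161.Ord.norm_int_le
  rw [pow_mul]
  exact_mod_cast h

theorem rn_pos' {q : ℕ} {F : ℤ[X]} {H : Multiset ℕ} (h : AboveHodge q F H) : ∀ x ∈ rn p F, 0 < x := by
  intro x hx
  obtain ⟨y, hy, rfl⟩ := Multiset.mem_map.mp hx
  rw [norm_pos_iff]
  rintro rfl
  have h1 := isRoot_of_mem_roots hy
  rw [IsRoot, ← coeff_zero_eq_eval_zero, coeff_map, eq_intCast] at h1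
  exact h.2.2.1 (by exact_mod_cast h1)

theorem card_rn' {q : ℕ} {F : ℤ[X]} {H : Multiset ℕ} (h : AboveHodge q F H) :
    Multiset.card (rn p F) = Multiset.card H := by
  unfold rn
  rw [Multiset.card_map, ← h.2.1, ← h.1.natDegree_map (Int.castRingHom (PadicAlgCl p))]
  exact splits_iff_card_roots.mp (IsAlgClosed.splits _)

theorem mx_rn_le' {f : ℕ} (hf : 0 < f) {F : ℤ[X]} {H : Multiset ℕ} (h : AboveHodge (p ^ f) F H) (r : ℝ)
    (hr : 0 < r) : mx (rn p F) r ≤ mx (H.map fun a => ((1 / (p : ℝ)) ^ f) ^ a) r := by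
  have hp1 : (1 : ℝ) < p := by exact_mod_cast hp.out.one_lt
  have hq1 : 1 / (p : ℝ) < 1 := by
    rw [div_lt_one (by linarith)]
    exact hp1
  have key := mx_le_of_coeff (F.map (Int.castRingHom (PadicAlgCl p))) (Multiset.card H) (h.1.map _)
    (by rw [h.1.natDegree_map, h.2.1]) (IsAlgClosed.splits _) ((1 / (p : ℝ)) ^ f) (by positivity)
    (pow_lt_one₀ (by positivity) hq1 hf.ne')
    (H.sort (· ≤ ·)) (by rw [Multiset.length_sort]) (fun k hk => by
      rw [coeff_map, eq_intCast]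
      exact norm_int_le' f (h.2.2.2 k hk)) hr
  have e : (((H.sort (· ≤ ·)).map (fun a => ((1 / (p : ℝ)) ^ f) ^ a) : List ℝ) : Multiset ℝ) =
      H.map fun a => ((1 / (p : ℝ)) ^ f) ^ a := by
    conv_rhs => rw [← Multiset.sort_eq H (· ≤ ·)]
    rw [Multiset.map_coe]
  rw [e] at key
  exact key

theorem hn_pow (f : ℕ) (H : Multiset ℕ) :
    ((hn p H).map fun x => x ^ f) = H.map fun a => ((1 / (p : ℝ)) ^ f) ^ a := by
  unfold hn
  rw [Multiset.map_map]
  apply Multiset.map_congr rfl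
  intro a _
  show ((1 / (p : ℝ)) ^ a) ^ f = _
  rw [← pow_mul, ← pow_mul, mul_comm]

theorem exists_embedding' (p : ℕ) [Fact p.Prime] : Nonempty (AlgebraicClosure ℚ →+* PadicAlgCl p) := by
  have h : @Algebra.IsAlgebraic ℚ (AlgebraicClosure ℚ) _ _ (DivisionRing.toRatAlgebra) := by
    have h0 := AlgebraicClosure.isAlgebraic ℚ
    have e : (AlgebraicClosure.instAlgebra ℚ : Algebra ℚ (AlgebraicClosure ℚ)) =
      DivisionRing.toRatAlgebra := Subsingleton.elim _ _
    rw [← e]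
    exact h0
  exact ⟨(IsAlgClosed.lift (R := ℚ) (S := AlgebraicClosure ℚ) (M := PadicAlgCl p)).toRingHom⟩

/-- **the local theorem** -/
theorem transfer {ι : Type*} (P : ι → ℤ[X]) (H : ι → Multiset ℕ) (hP : ∀ i, rn p (P i) = hn p (H i))
    (F FB FC : ℤ[X]) (HF HB HC : Multiset ℕ) (hF : AboveHodge p F HF) (f : ℕ) (hf : 0 < f)
    (hFB : AboveHodge (p ^ f) FB HB) (hFC : AboveHodge (p ^ f) FC HC) (hB0 : HB ≠ 0)
    (Φ : MvPolynomial ι ℕ)
    (hΦ : pw f (eigen (F.map (Int.castRingHom (AlgebraicClosure ℚ)))) *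
        eigen (FB.map (Int.castRingHom (AlgebraicClosure ℚ))) +
        eigen (FC.map (Int.castRingHom (AlgebraicClosure ℚ))) =
      MvPolynomial.eval₂ (Nat.castRingHom _)
        (fun i => pw f (eigen ((P i).map (Int.castRingHom (AlgebraicClosure ℚ))))) Φ)
    (hΦH : hodge HF * hodge HB + hodge HC =
      MvPolynomial.eval₂ (Nat.castRingHom _) (fun i => hodge (H i)) Φ) :
    rn p F = hn p HF := by
  classical
  obtain ⟨τ⟩ := exists_embedding' p
  set ψ : MonoidAlgebra ℕ (AlgebraicClosure ℚ) →+* MonoidAlgebra ℕ ℝ :=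
    MonoidAlgebra.mapDomainRingHom ℕ (((normHom : PadicAlgCl p →*₀ ℝ) : PadicAlgCl p →* ℝ).comp
      (τ : AlgebraicClosure ℚ →* PadicAlgCl p)) with hψ
  have e1 : τ.comp (Int.castRingHom (AlgebraicClosure ℚ)) = Int.castRingHom (PadicAlgCl p) :=
    RingHom.ext_int _ _
  have hint : ∀ G : ℤ[X], ψ (eigen (G.map (Int.castRingHom (AlgebraicClosure ℚ)))) = cls (rn p G) := by
    intro G
    rw [hψ, map_eigen, Polynomial.map_map, e1]
    rfl
  have hpw : ∀ G : ℤ[X], ψ (pw f (eigen (G.map (Int.castRingHom (AlgebraicClosure ℚ))))) =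
      cls ((rn p G).map fun x => x ^ f) := by
    intro G
    have h1 := hint G
    unfold eigen at h1 ⊢
    rw [hψ, map_cls] at h1
    have h2 := cls_inj h1
    rw [pw_cls, hψ, map_cls, ← h2, Multiset.map_map, Multiset.map_map]
    congr 1
    apply Multiset.map_congr rfl
    intro x _
    simp
  have hA' : ∀ i, ψ (pw f (eigen ((P i).map (Int.castRingHom (AlgebraicClosure ℚ))))) =
      toReal ((1 / (p : ℝ)) ^ f) (hodge (H i)) := by
    intro i
    rw [hpw, hP i, toReal_hodge, hn_pow]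
  have hL := congrArg ψ hΦ
  have hR := congrArg (toReal ((1 / (p : ℝ)) ^ f)) hΦH
  rw [map_add, map_mul, hpw, hint, hint, MvPolynomial.eval₂_comp_left] at hL
  rw [map_add, map_mul, toReal_hodge, toReal_hodge, toReal_hodge, MvPolynomial.eval₂_comp_left] at hR
  have e2 : ψ.comp (Nat.castRingHom (MonoidAlgebra ℕ (AlgebraicClosure ℚ))) =
      (toReal ((1 / (p : ℝ)) ^ f)).comp (Nat.castRingHom ℕ[X]) := by
    ext n
    simp
  have e3 : (ψ ∘ fun i => pw f (eigen ((P i).map (Int.castRingHom (AlgebraicClosure ℚ))))) =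
      (toReal ((1 / (p : ℝ)) ^ f)) ∘ fun i => hodge (H i) := funext hA'
  rw [e2, e3, ← hR, ← cls_cv, ← cls_cv, ← cls_add, ← cls_add] at hL
  have hmul := cls_inj hL
  have hrF := rn_pos' (p := p) hF
  have hhF := hn_pos (p := p) HF
  have hp0 : (0 : ℝ) < p := by exact_mod_cast hp.out.pos
  have key := factor_eq (V := (rn p F).map fun x => x ^ f)
    (V' := HF.map fun a => ((1 / (p : ℝ)) ^ f) ^ a)
    (by
      intro x hx
      obtain ⟨y, hy, rfl⟩ := Multiset.mem_map.mp hx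
      exact pow_pos (hrF y hy) f)
    (by
      intro x hx
      obtain ⟨y, -, rfl⟩ := Multiset.mem_map.mp hx
      positivity)
    (rn_pos' (p := p) hFB)
    (by rw [Multiset.card_map, Multiset.card_map, card_rn' hF])
    (by rw [card_rn' hFB, Multiset.card_map])
    (by
      intro h0
      apply hB0
      rw [← Multiset.card_eq_zero, ← card_rn' (p := p) hFB, h0, Multiset.card_zero])
    (by
      rw [← hn_pow]
      exact mx_pow_le hrF hhF hf (Pool.Agent.Y161.Ord.mx_rn_le hF))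
    (mx_rn_le' hf hFB) (mx_rn_le' hf hFC) hmul
  rw [← hn_pow] at key
  exact pow_map_inj hrF hhF hf key

end integer

end Pool.Agent.Y162.FD
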